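import Pool.Agent.V8H31.ES.Mult

/-!
# Multiplicative functions on Beatty sequences at one scale
-/

set_option autoImplicit false

namespace Pool.Agent.V8H31.ES

open Finset Real Polynomial Pool.Agent.W24.Katai

/-- the members of the Beatty sequence of `β` -/
lemma beatty_sum (β : ℝ) (hβ : 1 < β) (M : ℕ) (g : ℕ → ℂ) :
    ∑ n ∈ Icc 1 M, g ⌊(n : ℝ) * β⌋₊ =
      ∑ m ∈ Icc 1 ⌊(M : ℝ) * β⌋₊, (if Int.fract ((m : ℝ) * (-(1 / β))) < 1 / β then g m else 0) := by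
  have hβ0 : 0 < β := by linarith
  have hinv : 1 / β < 1 := by rw [div_lt_one hβ0]; exact hβ
  have hinv0 : 0 < 1 / β := by positivity
  rw [← sum_filter]
  refine sum_bij (fun (n : ℕ) _ => ⌊(n : ℝ) * β⌋₊) ?_ ?_ ?_ (fun _ _ => rfl)
  · intro n hn
    rw [mem_Icc] at hn
    obtain ⟨hn1, hnM⟩ := hn
    set p := ⌊(n : ℝ) * β⌋₊ with hp
    have hple : (p : ℝ) ≤ n * β := Nat.floor_le (by positivity)
    have hplt : (n : ℝ) * β < p + 1 := Nat.lt_floor_add_one _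
    rw [mem_filter, mem_Icc]
    refine ⟨⟨?_, ?_⟩, ?_⟩
    · rw [hp]
      apply Nat.le_floor
      have : (1 : ℝ) ≤ n := by exact_mod_cast hn1
      push_cast
      nlinarith
    · rw [hp]
      apply Nat.floor_le_floor
      have : (n : ℝ) ≤ M := by exact_mod_cast hnM
      gcongr
    · have h1 : Int.fract ((p : ℝ) * (-(1 / β))) = n - p / β := by
        rw [Int.fract_eq_iff]
        refine ⟨?_, ?_, -(n : ℤ), ?_⟩
        · rw [sub_nonneg, div_le_iff₀ hβ0]; exact hple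
        · have : (n : ℝ) < (p + 1) / β := by rw [lt_div_iff₀ hβ0]; exact hplt
          have h2 : ((p : ℝ) + 1) / β = p / β + 1 / β := by ring
          linarith
        · push_cast; ring
      rw [h1]
      have : (n : ℝ) < (p + 1) / β := by rw [lt_div_iff₀ hβ0]; exact hplt
      have h2 : ((p : ℝ) + 1) / β = p / β + 1 / β := by ring
      linarith
  · intro a ha b hb hab
    by_contra hne
    have key : ∀ a b : ℕ, a < b → ⌊(a : ℝ) * β⌋₊ < ⌊(b : ℝ) * β⌋₊ := by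
      intro a b hlt
      have h1 : (a : ℝ) + 1 ≤ b := by exact_mod_cast hlt
      have h2 : (⌊(a : ℝ) * β⌋₊ : ℝ) ≤ a * β := Nat.floor_le (by positivity)
      have h3 : (⌊(a : ℝ) * β⌋₊ : ℝ) + 1 ≤ b * β := by nlinarith
      have h4 : ⌊(a : ℝ) * β⌋₊ + 1 ≤ ⌊(b : ℝ) * β⌋₊ := Nat.le_floor (by push_cast; exact h3)
      omega
    rcases Nat.lt_or_gt_of_ne hne with h | h
    · exact absurd hab (key a b h).ne
    · exact absurd hab (key b a h).ne'
  · intro p hp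
    rw [mem_filter, mem_Icc] at hp
    obtain ⟨⟨hp1, hpM⟩, hfr⟩ := hp
    have hpr1 : (1 : ℝ) ≤ p := by exact_mod_cast hp1
    set k : ℤ := -⌊(p : ℝ) * (-(1 / β))⌋ with hk
    have hfk : Int.fract ((p : ℝ) * (-(1 / β))) = k - p / β := by
      have h1 := Int.self_sub_floor ((p : ℝ) * (-(1 / β)))
      rw [← h1, hk]; push_cast; ring
    rw [hfk] at hfr
    have hk1 : (p : ℝ) / β ≤ k := by
      have := Int.fract_nonneg ((p : ℝ) * (-(1 / β)))
      rw [hfk] at this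
      linarith
    have hk0 : (0 : ℝ) < k := lt_of_lt_of_le (by positivity) hk1
    have hk0' : 0 < k := by exact_mod_cast hk0
    obtain ⟨n, hn⟩ := Int.eq_ofNat_of_zero_le hk0'.le
    have hkn : (k : ℝ) = n := by rw [hn]; norm_cast
    rw [hkn] at hfr hk1
    have hn1 : 1 ≤ n := by omega
    have h2 : (p : ℝ) ≤ n * β := (div_le_iff₀ hβ0).1 hk1
    have h3 : (n : ℝ) * β < p + 1 := by
      have h4 : (n : ℝ) < (p + 1) / β := by
        have h5 : ((p : ℝ) + 1) / β = p / β + 1 / β := by ring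
        linarith
      exact (lt_div_iff₀ hβ0).1 h4
    have hfl : ⌊(n : ℝ) * β⌋₊ = p := by
      rw [Nat.floor_eq_iff (by positivity)]
      exact ⟨h2, h3⟩
    refine ⟨n, ?_, hfl⟩
    rw [mem_Icc]
    refine ⟨hn1, ?_⟩
    by_contra hcon
    have h5 : (M : ℝ) + 1 ≤ n := by exact_mod_cast not_le.1 hcon
    have h6 : (p : ℝ) ≤ M * β := by
      have : (p : ℝ) ≤ ⌊(M : ℝ) * β⌋₊ := by exact_mod_cast hpM
      exact this.trans (Nat.floor_le (by positivity))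
    nlinarith

lemma mul1_conj {g : ℕ → ℂ} (hg : Mul1 g) : Mul1 (fun n => (starRingEnd ℂ) (g n)) := by
  refine ⟨fun n => ?_, fun m n h => ?_⟩
  · simp only [RCLike.norm_conj]
    exact hg.1 n
  · simp only
    rw [hg.2 m n h, map_mul]

lemma mul1_one : Mul1 (fun _ => 1) := ⟨fun _ => by simp, fun _ _ _ => by simp⟩

/-- **Multiplicative functions on Beatty sequences.** -/
theorem beatty_mult_far (c0 : ℝ) (h0 : 0 < c0) (h1 : c0 ≤ 1) : ∃ (C : ℝ) (N₀ : ℕ), 0 ≤ C ∧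
    ∀ N : ℕ, N₀ ≤ N → 1 ≤ Real.log (Real.log N) ∧ ∀ β : ℝ, 1 < β → β ≤ 2 → Far β ((N : ℝ) ^ c0) N →
    ∀ g : ℕ → ℂ, Mul1 g → ∀ M : ℕ, M ≤ N →
      ‖∑ n ∈ Icc 1 M, g ⌊(n : ℝ) * β⌋₊ - ((1 / β : ℝ) : ℂ) * ∑ m ∈ Icc 1 ⌊(M : ℝ) * β⌋₊, g m‖ ≤
        C * (N / (Real.log (Real.log N)) ^ (1 / 4 : ℝ)) := by
  obtain ⟨κ, C, N1, hκ, hC, hm⟩ := mult_far (c0 / 2) (by positivity) (by linarith) 1 le_rfl
  have hlim : Filter.Tendsto (fun N : ℕ => (N : ℝ) ^ (c0 / 2)) Filter.atTop Filter.atTop :=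
    (tendsto_rpow_atTop (by positivity)).comp tendsto_natCast_atTop_atTop
  obtain ⟨N2, hN2⟩ := Filter.eventually_atTop.1 (hlim.eventually_ge_atTop 4)
  -- `log log N` is smaller than the power `κ`
  have hlim2 : ∃ N3 : ℕ, ∀ N : ℕ, N3 ≤ N → Real.log (Real.log N) ≤ (N : ℝ) ^ κ := by
    have h2 : ∀ᶠ N : ℕ in Filter.atTop, Real.log (Real.log N) ≤ (N : ℝ) ^ κ := by
      have h3 := (isLittleO_log_rpow_atTop hκ).comp_tendsto tendsto_natCast_atTop_atTop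
      have h4 := h3.bound (c := 1) one_pos
      filter_upwards [h4, Filter.eventually_ge_atTop 3] with N hN hN3
      simp only [Function.comp] at hN
      have hNr : (3 : ℝ) ≤ N := by exact_mod_cast hN3
      have hl0 : 0 ≤ Real.log N := Real.log_nonneg (by linarith)
      rw [Real.norm_of_nonneg hl0, Real.norm_of_nonneg (by positivity), one_mul] at hN
      rcases hl0.eq_or_lt with h5 | h5
      · rw [← h5, Real.log_zero]; positivity
      · have := Real.log_le_sub_one_of_pos h5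
        linarith
    exact Filter.eventually_atTop.1 h2
  obtain ⟨N3, hN3⟩ := hlim2
  refine ⟨2 * (3 * 2 + (C * 2 + 4)), N1 + N2 + N3 + 1, by positivity, fun N hN => ?_⟩
  obtain ⟨hll, -⟩ := hm N (by omega)
  refine ⟨hll, fun β hβ1 hβ2 hfar g hg M hM => ?_⟩
  have hN1 : 1 ≤ N := by omega
  have hNr : (1 : ℝ) ≤ N := by exact_mod_cast hN1
  have hN0 : (0 : ℝ) < N := by linarith
  have hβ0 : 0 < β := by linarith
  have h4 := hN2 N (by omega)
  have h5 : ((2 * N : ℕ) : ℝ) ^ (c0 / 2) ≤ 2 * (N : ℝ) ^ (c0 / 2) := by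
    push_cast
    rw [Real.mul_rpow (by norm_num) hN0.le]
    have : (2 : ℝ) ^ (c0 / 2) ≤ 2 ^ (1 : ℝ) := Real.rpow_le_rpow_of_exponent_le (by norm_num) (by linarith)
    rw [Real.rpow_one] at this
    gcongr
  have h6 : (N : ℝ) ^ c0 = (N : ℝ) ^ (c0 / 2) * (N : ℝ) ^ (c0 / 2) := by
    rw [← Real.rpow_add hN0]; congr 1; ring
  have h7 : 2 * ((2 * N : ℕ) : ℝ) ^ (c0 / 2) ≤ (N : ℝ) ^ c0 := by
    rw [h6]
    nlinarith
  have h8 : (N : ℝ) ^ c0 ≤ N := by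
    calc (N : ℝ) ^ c0 ≤ (N : ℝ) ^ (1 : ℝ) := Real.rpow_le_rpow_of_exponent_le hNr h1
      _ = N := Real.rpow_one _
  have h10 : (0 : ℝ) < ((2 * N : ℕ) : ℝ) ^ (c0 / 2) := by positivity
  have hfar2 := (hfar.inv hβ1.le hβ2 h7 hN1 (by linarith)).neg
  set K : ℕ := ⌊(M : ℝ) * β⌋₊ with hK
  have hMβ : K ≤ 2 * N := by
    apply Nat.floor_le_of_le
    push_cast
    have hMr : (M : ℝ) ≤ N := by exact_mod_cast hM
    nlinarith
  obtain ⟨hll2, hm2⟩ := hm (2 * N) (by omega)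
  -- the exponential sums
  set L : ℝ := Real.log (Real.log N) with hL
  set L2 : ℝ := Real.log (Real.log ((2 * N : ℕ) : ℝ)) with hL2
  have hLL : L ≤ L2 := by
    have hlN : 0 < Real.log N := by
      by_contra hcon
      have h11 : Real.log N ≤ 0 := not_lt.1 hcon
      have h12 : Real.log N = 0 := le_antisymm h11 (Real.log_nonneg hNr)
      rw [hL, h12, Real.log_zero] at hll
      linarith
    apply Real.log_le_log hlN
    apply Real.log_le_log hN0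
    push_cast
    linarith
  have hL0 : 0 < L := by linarith
  set H : ℕ := ⌊L⌋₊ with hH
  have hH1 : 1 ≤ H := Nat.le_floor (by simpa using hll)
  have hHle : (H : ℝ) ≤ L := Nat.floor_le hL0.le
  have hHlt : L < H + 1 := Nat.lt_floor_add_one _
  have hHr : (1 : ℝ) ≤ H := by exact_mod_cast hH1
  have hsums : ∀ g : ℕ → ℂ, Mul1 g → ∀ h : ℕ, 1 ≤ h → h ≤ H →
      ‖∑ m ∈ Icc 1 K, g m * e (h * ((m : ℝ) * (-(1 / β))))‖ ≤ C * (((2 * N : ℕ) : ℝ) / √L2) := by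
    intro g hg h hh1 hhH
    have hhN : (h : ℝ) ≤ ((2 * N : ℕ) : ℝ) ^ κ := by
      have a1 : (h : ℝ) ≤ L := le_trans (by exact_mod_cast hhH) hHle
      have a2 := hN3 N (by omega)
      have a3 : (N : ℝ) ^ κ ≤ ((2 * N : ℕ) : ℝ) ^ κ := by
        apply Real.rpow_le_rpow hN0.le _ hκ.le
        push_cast; linarith
      linarith
    have h11 := hm2 (-(1 / β)) hfar2 (X * Polynomial.C (-(1 / β))) (by
        refine natDegree_mul_C_le _ _ |>.trans natDegree_X_le) (by simp) g hg K hMβ h hh1 hhN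
    have h12 : ∑ m ∈ Icc 1 K, g m * e (h * ((m : ℝ) * (-(1 / β)))) =
        ∑ n ∈ Ioc 0 K, g n * e (h * (X * Polynomial.C (-(1 / β))).eval (n : ℝ)) := by
      refine sum_congr rfl fun n _ => ?_
      rw [eval_mul, eval_X, eval_C]
    rw [h12]
    exact h11
  set B : ℝ := C * (((2 * N : ℕ) : ℝ) / √L2) with hB
  have hB0 : 0 ≤ B := by positivity
  set δ : ℝ := 1 / L ^ (1 / 4 : ℝ) with hδ
  have hL4 : 1 ≤ L ^ (1 / 4 : ℝ) := Real.one_le_rpow hll (by norm_num)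
  have hδ0 : 0 < δ := by positivity
  have h13 := arcC (Icc 1 K) g (fun m : ℕ => (m : ℝ) * (-(1 / β))) (fun i _ => hg.1 i) H hH1 B
    (hsums g hg) (hsums _ (mul1_conj hg)) (fun h hh1 hhH => by
      have := hsums _ mul1_one h hh1 hhH
      simpa using this) (1 / β) δ (by positivity) (by rw [div_le_one hβ0]; exact hβ1.le) hδ0
  rw [← beatty_sum β hβ1 M g] at h13
  refine h13.trans ?_
  have hcard : ((#(Icc 1 K) : ℕ) : ℝ) ≤ 2 * N := by
    rw [Nat.card_Icc, Nat.add_sub_cancel]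
    exact_mod_cast hMβ
  have hcard0 : (0 : ℝ) ≤ ((#(Icc 1 K) : ℕ) : ℝ) := Nat.cast_nonneg _
  have hsqL : L ^ (1 / 4 : ℝ) * L ^ (1 / 4 : ℝ) = √L := by
    rw [← Real.rpow_add hL0, Real.sqrt_eq_rpow]; norm_num
  have hsq0 : 0 < √L := Real.sqrt_pos.2 hL0
  have b1 : B ≤ C * 2 * (N / √L) := by
    rw [hB]
    have : ((2 * N : ℕ) : ℝ) / √L2 ≤ 2 * (N / √L) := by
      push_cast
      rw [← mul_div_assoc]
      have := Real.sqrt_le_sqrt hLL
      gcongr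
    calc C * (((2 * N : ℕ) : ℝ) / √L2) ≤ C * (2 * (N / √L)) := by gcongr
      _ = C * 2 * (N / √L) := by ring
  have b2 : ((#(Icc 1 K) : ℕ) : ℝ) / H ≤ 4 * (N / √L) := by
    have h14 : √L ≤ L := by
      rw [Real.sqrt_le_left hL0.le]
      nlinarith
    have h15 : √L ≤ 2 * H := by linarith
    rw [← mul_div_assoc, div_le_div_iff₀ (by linarith) hsq0]
    calc ((#(Icc 1 K) : ℕ) : ℝ) * √L ≤ (2 * N) * (2 * H) := by gcongr
      _ = 4 * N * H := by ring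
  have b3 : (B + ((#(Icc 1 K) : ℕ) : ℝ) / H) / δ ≤ (C * 2 + 4) * (N / L ^ (1 / 4 : ℝ)) := by
    rw [hδ, div_div_eq_mul_div, div_one]
    calc (B + ((#(Icc 1 K) : ℕ) : ℝ) / H) * L ^ (1 / 4 : ℝ)
        ≤ (C * 2 * (N / √L) + 4 * (N / √L)) * L ^ (1 / 4 : ℝ) := by gcongr
      _ = (C * 2 + 4) * (N / L ^ (1 / 4 : ℝ)) := by
          rw [← hsqL]
          field_simp
  have b4 : 3 * δ * ((#(Icc 1 K) : ℕ) : ℝ) ≤ 3 * 2 * (N / L ^ (1 / 4 : ℝ)) := by
    calc 3 * δ * ((#(Icc 1 K) : ℕ) : ℝ) ≤ 3 * δ * (2 * N) := by gcongr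
      _ = 3 * 2 * (N / L ^ (1 / 4 : ℝ)) := by rw [hδ]; ring
  calc 2 * (3 * δ * ((#(Icc 1 K) : ℕ) : ℝ) + (B + ((#(Icc 1 K) : ℕ) : ℝ) / H) / δ)
      ≤ 2 * (3 * 2 * (N / L ^ (1 / 4 : ℝ)) + (C * 2 + 4) * (N / L ^ (1 / 4 : ℝ))) := by gcongr
    _ = 2 * (3 * 2 + (C * 2 + 4)) * (N / L ^ (1 / 4 : ℝ)) := by ring

end Pool.Agent.V8H31.ES
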