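import Mathlib

/-!
# An inequality of Erdős–Turán type with power savings

The trapezoid over an arc is a combination of four second Bernoulli functions, whose Fourier series
converges absolutely.
-/

set_option autoImplicit false

namespace Pool.Agent.V8H31.ES

open Finset Real

/-- `e x = exp (2 π i x)` -/
noncomputable def e (x : ℝ) : ℂ := Complex.exp (2 * π * x * Complex.I)

lemma norm_e (x : ℝ) : ‖e x‖ = 1 := by
  unfold e
  have h : (2 * (π : ℂ) * x * Complex.I) = ((2 * π * x : ℝ) : ℂ) * Complex.I := by push_cast; ring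
  rw [h, Complex.norm_exp_ofReal_mul_I]

lemma e_add (x y : ℝ) : e (x + y) = e x * e y := by
  unfold e
  rw [← Complex.exp_add]
  congr 1
  push_cast
  ring

lemma e_re (x : ℝ) : (e x).re = Real.cos (2 * π * x) := by
  unfold e
  have h : (2 * (π : ℂ) * x * Complex.I) = ((2 * π * x : ℝ) : ℂ) * Complex.I := by push_cast; ring
  rw [h, Complex.exp_ofReal_mul_I_re]

/-- the second Bernoulli function -/
noncomputable def bt (y : ℝ) : ℝ := Int.fract y ^ 2 - Int.fract y + 1 / 6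

lemma bt_le (y : ℝ) (k : ℤ) : bt y ≤ (y - k) ^ 2 - (y - k) + 1 / 6 := by
  unfold bt
  have hf0 := Int.fract_nonneg y
  have hf1 := Int.fract_lt_one y
  set f := Int.fract y with hf
  have hy : y = f + ⌊y⌋ := by rw [hf]; exact (Int.fract_add_floor y).symm
  have hy' : y - k = f + ((⌊y⌋ - k : ℤ) : ℝ) := by push_cast; linarith
  rw [hy']
  set d : ℤ := ⌊y⌋ - k with hd
  have h1 : 0 ≤ (d : ℝ) * (d - 1) + 2 * f * d := by
    rcases le_or_gt 0 d with h | h
    · have h2 : (0 : ℤ) ≤ d * (d - 1) := by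
        rcases h.eq_or_lt with h3 | h3
        · rw [← h3]; simp
        · exact mul_nonneg h (by omega)
      have h2' : (0 : ℝ) ≤ (d : ℝ) * (d - 1) := by exact_mod_cast h2
      have h3 : (0 : ℝ) ≤ d := by exact_mod_cast h
      positivity
    · have h2 : (d : ℝ) ≤ -1 := by exact_mod_cast (by omega : d ≤ -1)
      nlinarith
  nlinarith

lemma bt_eq (y : ℝ) (k : ℤ) (h0 : (k : ℝ) ≤ y) (h1 : y < k + 1) :
    bt y = (y - k) ^ 2 - (y - k) + 1 / 6 := by
  have h : ⌊y⌋ = k := Int.floor_eq_iff.2 ⟨h0, h1⟩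
  have h2 : Int.fract y = y - k := by rw [← h]; exact (Int.self_sub_floor y).symm
  unfold bt
  rw [h2]

lemma bt_sub_int (y : ℝ) (k : ℤ) : bt (y - k) = bt y := by
  unfold bt
  rw [Int.fract_sub_intCast]

/-- the trapezoid over an arc is at least its indicator function -/
lemma trap (y ℓ δ : ℝ) (h0 : 0 ≤ ℓ) (h1 : ℓ ≤ 1) (hδ : 0 < δ) :
    (if Int.fract y < ℓ then (1 : ℝ) else 0) ≤
      (ℓ + δ) - (bt (y + δ) - bt y - bt (y - ℓ) + bt (y - ℓ - δ)) / (2 * δ) := by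
  -- reduce to `0 ≤ y < 1`
  set f := Int.fract y with hf
  have hf0 : 0 ≤ f := Int.fract_nonneg y
  have hf1 : f < 1 := Int.fract_lt_one y
  have hy : f = y - (⌊y⌋ : ℤ) := (Int.self_sub_floor y).symm
  have e1 : bt (y + δ) = bt (f + δ) := by
    rw [← bt_sub_int (y + δ) ⌊y⌋]; congr 1; rw [hy]; ring
  have e2 : bt y = bt f := by
    rw [← bt_sub_int y ⌊y⌋, hy]
  have e3 : bt (y - ℓ) = bt (f - ℓ) := by
    rw [← bt_sub_int (y - ℓ) ⌊y⌋]; congr 1; rw [hy]; ring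
  have e4 : bt (y - ℓ - δ) = bt (f - ℓ - δ) := by
    rw [← bt_sub_int (y - ℓ - δ) ⌊y⌋]; congr 1; rw [hy]; ring
  rw [e1, e2, e3, e4]
  have g1 := bt_le (f + δ) 0
  have g2 : bt f = f ^ 2 - f + 1 / 6 := by
    have := bt_eq f 0 (by simpa using hf0) (by simpa using hf1)
    simpa using this
  rw [Int.cast_zero, sub_zero] at g1
  split_ifs with hlt
  · have g3 : bt (f - ℓ) = (f - ℓ + 1) ^ 2 - (f - ℓ + 1) + 1 / 6 := by
      have := bt_eq (f - ℓ) (-1) (by push_cast; linarith) (by push_cast; linarith)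
      rw [this]; push_cast; ring
    have g4 := bt_le (f - ℓ - δ) (-1)
    have g5 : bt (f + δ) - bt f - bt (f - ℓ) + bt (f - ℓ - δ) ≤ 2 * δ * (ℓ + δ) - 2 * δ := by
      rw [g2, g3]
      push_cast at g4
      nlinarith
    have g6 : (bt (f + δ) - bt f - bt (f - ℓ) + bt (f - ℓ - δ)) / (2 * δ) ≤
        (2 * δ * (ℓ + δ) - 2 * δ) / (2 * δ) := by gcongr
    have g7 : (2 * δ * (ℓ + δ) - 2 * δ) / (2 * δ) = ℓ + δ - 1 := by field_simp
    linarith
  · have hge : ℓ ≤ f := not_lt.1 hlt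
    have g3 : bt (f - ℓ) = (f - ℓ) ^ 2 - (f - ℓ) + 1 / 6 := by
      have := bt_eq (f - ℓ) 0 (by push_cast; linarith) (by push_cast; linarith)
      rw [this]; push_cast; ring
    have g4 := bt_le (f - ℓ - δ) 0
    have g5 : bt (f + δ) - bt f - bt (f - ℓ) + bt (f - ℓ - δ) ≤ 2 * δ * (ℓ + δ) := by
      rw [g2, g3]
      push_cast at g4
      nlinarith
    have g6 : (bt (f + δ) - bt f - bt (f - ℓ) + bt (f - ℓ - δ)) / (2 * δ) ≤
        (2 * δ * (ℓ + δ)) / (2 * δ) := by gcongr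
    have g7 : (2 * δ * (ℓ + δ)) / (2 * δ) = ℓ + δ := by field_simp
    linarith

/-- the Fourier series of the second Bernoulli function -/
lemma bt_hasSum (y : ℝ) :
    HasSum (fun n : ℕ => 1 / (n : ℝ) ^ 2 * Real.cos (2 * π * (n * y))) (π ^ 2 * bt y) := by
  have hf0 : 0 ≤ Int.fract y := Int.fract_nonneg y
  have hf1 : Int.fract y ≤ 1 := (Int.fract_lt_one y).le
  have h := hasSum_one_div_nat_pow_mul_cos (k := 1) one_ne_zero (x := Int.fract y) ⟨hf0, hf1⟩
  have e1 : (fun n : ℕ => 1 / (n : ℝ) ^ (2 * 1) * Real.cos (2 * π * n * Int.fract y)) =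
      (fun n : ℕ => 1 / (n : ℝ) ^ 2 * Real.cos (2 * π * (n * y))) := by
    funext n
    have h1 : 2 * π * n * Int.fract y = 2 * π * (n * y) - ((n * ⌊y⌋ : ℤ) : ℝ) * (2 * π) := by
      have : Int.fract y = y - ⌊y⌋ := (Int.self_sub_floor y).symm
      rw [this]; push_cast; ring
    rw [mul_one, h1, Real.cos_sub_int_mul_two_pi]
  rw [e1] at h
  convert h using 1
  have h2 : (Polynomial.map (algebraMap ℚ ℝ) (Polynomial.bernoulli (2 * 1))).eval (Int.fract y) =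
      bt y := by
    unfold bt
    rw [mul_one, Polynomial.bernoulli, Polynomial.map_sum, Polynomial.eval_finsetSum]
    simp only [Finset.sum_range_succ, Finset.sum_range_zero, zero_add, Polynomial.map_monomial,
      Polynomial.eval_monomial]
    norm_num [bernoulli_one, bernoulli_eq_bernoulli'_of_ne_one, bernoulli'_two, Nat.choose]
    try ring
  rw [h2]
  have h4 : ((2 * 1).factorial : ℝ) = 2 := by norm_num [Nat.factorial]
  rw [h4]
  ring

lemma sum_sq_tail (H : ℕ) (hH : 1 ≤ H) :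
    ∑' n : ℕ, 1 / ((n + (H + 1) : ℕ) : ℝ) ^ 2 ≤ 1 / (H : ℝ) := by
  have hHr : (1 : ℝ) ≤ H := by exact_mod_cast hH
  apply Real.tsum_le_of_sum_range_le
  · intro n; positivity
  · intro n
    have h : ∀ n : ℕ, ∑ i ∈ range n, 1 / ((i + (H + 1) : ℕ) : ℝ) ^ 2 ≤
        1 / (H : ℝ) - 1 / ((H : ℝ) + n) := by
      intro n
      induction n with
      | zero => simp
      | succ n ih =>
        rw [sum_range_succ]
        have h1 : 1 / ((n + (H + 1) : ℕ) : ℝ) ^ 2 ≤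
            1 / ((H : ℝ) + n) - 1 / ((H : ℝ) + (n + 1 : ℕ)) := by
          have hn : (0 : ℝ) ≤ n := Nat.cast_nonneg n
          push_cast
          rw [div_sub_div _ _ (by positivity) (by positivity), div_le_div_iff₀ (by positivity) (by positivity)]
          nlinarith
        linarith
    have h2 := h n
    have h3 : 0 ≤ 1 / ((H : ℝ) + n) := by positivity
    linarith

/-- sums of second Bernoulli functions against exponential sums -/
lemma sum_bt {ι : Type*} (S : Finset ι) (w t : ι → ℝ) (hw : ∀ i ∈ S, 0 ≤ w i) (H : ℕ) (hH : 1 ≤ H)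
    (B : ℝ) (hB : ∀ h : ℕ, 1 ≤ h → h ≤ H → ‖∑ i ∈ S, (w i : ℂ) * e (h * t i)‖ ≤ B) (s : ℝ) :
    |∑ i ∈ S, w i * bt (t i - s)| ≤ (B + (∑ i ∈ S, w i) / H) / 6 := by
  set W := ∑ i ∈ S, w i with hW
  have hW0 : 0 ≤ W := sum_nonneg hw
  have hHr : (1 : ℝ) ≤ H := by exact_mod_cast hH
  have hB0 : 0 ≤ B := (norm_nonneg _).trans (hB 1 le_rfl hH)
  have hs1 : HasSum (fun n : ℕ => 1 / (n : ℝ) ^ 2 * ∑ i ∈ S, w i * Real.cos (2 * π * (n * (t i - s))))
      (∑ i ∈ S, w i * (π ^ 2 * bt (t i - s))) := by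
    have h1 : HasSum (fun n : ℕ => ∑ i ∈ S, w i * (1 / (n : ℝ) ^ 2 * Real.cos (2 * π * (n * (t i - s)))))
        (∑ i ∈ S, w i * (π ^ 2 * bt (t i - s))) :=
      hasSum_sum fun i _ => (bt_hasSum (t i - s)).mul_left (w i)
    convert h1 using 2 with n
    rw [mul_sum]
    refine sum_congr rfl fun i _ => ?_
    ring
  set c : ℕ → ℝ := fun n => ∑ i ∈ S, w i * Real.cos (2 * π * (n * (t i - s))) with hc
  have hcW : ∀ n, |c n| ≤ W := by
    intro n
    refine (abs_sum_le_sum_abs _ _).trans (sum_le_sum fun i hi => ?_)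
    rw [abs_mul, abs_of_nonneg (hw i hi)]
    have := Real.abs_cos_le_one (2 * π * (n * (t i - s)))
    have := hw i hi
    nlinarith
  have hcB : ∀ n, 1 ≤ n → n ≤ H → |c n| ≤ B := by
    intro n h1 h2
    have h3 : c n = (e (-(n * s)) * ∑ i ∈ S, (w i : ℂ) * e (n * t i)).re := by
      rw [hc, mul_sum, Complex.re_sum]
      refine sum_congr rfl fun i _ => ?_
      have h4 : e (-(n * s)) * ((w i : ℂ) * e (n * t i)) = (w i : ℂ) * e (n * (t i - s)) := by
        have : (n : ℝ) * (t i - s) = -(n * s) + n * t i := by ring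
        rw [this, e_add]; ring
      rw [h4, Complex.re_ofReal_mul, e_re]
    rw [h3]
    refine (Complex.abs_re_le_norm _).trans ?_
    rw [norm_mul, norm_e, one_mul]
    exact hB n h1 h2
  have hsm : Summable (fun n : ℕ => 1 / (n : ℝ) ^ 2) := Real.summable_one_div_nat_pow.2 one_lt_two
  have hπ : 9 ≤ π ^ 2 := by nlinarith [Real.pi_gt_three]
  -- split
  have h5 : ∑ i ∈ S, w i * (π ^ 2 * bt (t i - s)) = π ^ 2 * ∑ i ∈ S, w i * bt (t i - s) := by
    rw [mul_sum]; exact sum_congr rfl fun i _ => by ring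
  rw [h5] at hs1
  have hsm2 : Summable (fun n : ℕ => 1 / (n : ℝ) ^ 2 * c n) := hs1.summable
  have h6 : π ^ 2 * ∑ i ∈ S, w i * bt (t i - s) =
      ∑ n ∈ range (H + 1), 1 / (n : ℝ) ^ 2 * c n + ∑' n : ℕ, 1 / ((n + (H + 1) : ℕ) : ℝ) ^ 2 * c (n + (H + 1)) := by
    rw [← hs1.tsum_eq, ← hsm2.sum_add_tsum_nat_add (H + 1)]
  have h7 : |∑ n ∈ range (H + 1), 1 / (n : ℝ) ^ 2 * c n| ≤ B * (π ^ 2 / 6) := by
    have h8 : |∑ n ∈ range (H + 1), 1 / (n : ℝ) ^ 2 * c n| ≤ ∑ n ∈ range (H + 1), 1 / (n : ℝ) ^ 2 * B := by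
      refine (abs_sum_le_sum_abs _ _).trans (sum_le_sum fun n hn => ?_)
      rw [mem_range] at hn
      rcases Nat.eq_zero_or_pos n with h9 | h9
      · subst h9; simp
      · rw [abs_mul, abs_of_nonneg (by positivity)]
        have := hcB n h9 (by omega)
        gcongr
    refine h8.trans ?_
    rw [← sum_mul, mul_comm]
    have h9 : ∑ n ∈ range (H + 1), 1 / (n : ℝ) ^ 2 ≤ π ^ 2 / 6 := by
      rw [← hasSum_zeta_two.tsum_eq]
      exact hsm.sum_le_tsum _ (fun n _ => by positivity)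
    gcongr
  have h8 : |∑' n : ℕ, 1 / ((n + (H + 1) : ℕ) : ℝ) ^ 2 * c (n + (H + 1))| ≤ W * (1 / H) := by
    have hsm3 : Summable (fun n : ℕ => 1 / ((n + (H + 1) : ℕ) : ℝ) ^ 2) :=
      (summable_nat_add_iff (f := fun n : ℕ => 1 / (n : ℝ) ^ 2) (H + 1)).2 hsm
    have hsm4 : Summable (fun n : ℕ => W * (1 / ((n + (H + 1) : ℕ) : ℝ) ^ 2)) := hsm3.mul_left W
    have h9 : ∀ n : ℕ, ‖1 / ((n + (H + 1) : ℕ) : ℝ) ^ 2 * c (n + (H + 1))‖ ≤
        W * (1 / ((n + (H + 1) : ℕ) : ℝ) ^ 2) := by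
      intro n
      rw [Real.norm_eq_abs, abs_mul, abs_of_nonneg (by positivity), mul_comm]
      have := hcW (n + (H + 1))
      gcongr
    have h10 := tsum_of_norm_bounded hsm4.hasSum h9
    rw [Real.norm_eq_abs, tsum_mul_left] at h10
    refine h10.trans ?_
    have := sum_sq_tail H hH
    gcongr
  have h9 : |π ^ 2 * ∑ i ∈ S, w i * bt (t i - s)| ≤ B * (π ^ 2 / 6) + W * (1 / H) := by
    rw [h6]
    exact (abs_add_le _ _).trans (add_le_add h7 h8)
  rw [abs_mul, abs_of_nonneg (by positivity : (0 : ℝ) ≤ π ^ 2)] at h9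
  have h10 : W * (1 / H) ≤ π ^ 2 * (W / H / 6) := by
    have h11 : 0 ≤ W / H := by positivity
    have h12 : W * (1 / H) = W / H := by ring
    rw [h12]
    nlinarith
  have h11 : π ^ 2 * |∑ i ∈ S, w i * bt (t i - s)| ≤ π ^ 2 * ((B + W / H) / 6) := by
    have : π ^ 2 * ((B + W / H) / 6) = B * (π ^ 2 / 6) + π ^ 2 * (W / H / 6) := by ring
    linarith
  exact le_of_mul_le_mul_left h11 (by positivity)

/-- upper bound for arcs -/
lemma arc_le {ι : Type*} (S : Finset ι) (w t : ι → ℝ) (hw : ∀ i ∈ S, 0 ≤ w i) (H : ℕ) (hH : 1 ≤ H)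
    (B : ℝ) (hB : ∀ h : ℕ, 1 ≤ h → h ≤ H → ‖∑ i ∈ S, (w i : ℂ) * e (h * t i)‖ ≤ B) (u ℓ δ : ℝ)
    (h0 : 0 ≤ ℓ) (h1 : ℓ ≤ 1) (hδ : 0 < δ) :
    ∑ i ∈ S, (if Int.fract (t i - u) < ℓ then w i else 0) ≤
      ℓ * ∑ i ∈ S, w i + (δ * ∑ i ∈ S, w i + (B + (∑ i ∈ S, w i) / H) / (3 * δ)) := by
  set W := ∑ i ∈ S, w i with hW
  have key : ∀ s, |∑ i ∈ S, w i * bt (t i - s)| ≤ (B + W / H) / 6 := fun s =>
    sum_bt S w t hw H hH B hB s
  have a1 := abs_le.1 (key (u - δ))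
  have a2 := abs_le.1 (key u)
  have a3 := abs_le.1 (key (u + ℓ))
  have a4 := abs_le.1 (key (u + ℓ + δ))
  have h2 : ∑ i ∈ S, (if Int.fract (t i - u) < ℓ then w i else 0) ≤
      ∑ i ∈ S, w i * ((ℓ + δ) - (bt (t i - u + δ) - bt (t i - u) - bt (t i - u - ℓ) +
        bt (t i - u - ℓ - δ)) / (2 * δ)) := by
    refine sum_le_sum fun i hi => ?_
    have h3 := mul_le_mul_of_nonneg_left (trap (t i - u) ℓ δ h0 h1 hδ) (hw i hi)
    refine le_trans (le_of_eq ?_) h3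
    split_ifs <;> simp
  have h3 : ∑ i ∈ S, w i * ((ℓ + δ) - (bt (t i - u + δ) - bt (t i - u) - bt (t i - u - ℓ) +
        bt (t i - u - ℓ - δ)) / (2 * δ)) =
      (ℓ + δ) * W - (∑ i ∈ S, w i * bt (t i - (u - δ)) - ∑ i ∈ S, w i * bt (t i - u) -
        ∑ i ∈ S, w i * bt (t i - (u + ℓ)) + ∑ i ∈ S, w i * bt (t i - (u + ℓ + δ))) / (2 * δ) := by
    rw [hW, mul_sum, ← sum_sub_distrib, ← sum_sub_distrib, ← sum_add_distrib, sum_div,
      ← sum_sub_distrib]
    refine sum_congr rfl fun i _ => ?_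
    have e1 : t i - u + δ = t i - (u - δ) := by ring
    have e2 : t i - u - ℓ = t i - (u + ℓ) := by ring
    have e3 : t i - u - ℓ - δ = t i - (u + ℓ + δ) := by ring
    rw [e1, e3, e2]
    ring
  rw [h3] at h2
  have h4 : -(∑ i ∈ S, w i * bt (t i - (u - δ)) - ∑ i ∈ S, w i * bt (t i - u) -
        ∑ i ∈ S, w i * bt (t i - (u + ℓ)) + ∑ i ∈ S, w i * bt (t i - (u + ℓ + δ))) ≤
      2 * (B + W / H) / 3 := by linarith [a1.1, a2.2, a3.2, a4.1]
  have h5 : -(∑ i ∈ S, w i * bt (t i - (u - δ)) - ∑ i ∈ S, w i * bt (t i - u) -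
        ∑ i ∈ S, w i * bt (t i - (u + ℓ)) + ∑ i ∈ S, w i * bt (t i - (u + ℓ + δ))) / (2 * δ) ≤
      (2 * (B + W / H) / 3) / (2 * δ) := by gcongr
  have h6 : (2 * (B + W / H) / 3) / (2 * δ) = (B + W / H) / (3 * δ) := by field_simp
  rw [h6, neg_div] at h5
  linarith

/-- **An inequality of Erdős–Turán type.** -/
theorem arc {ι : Type*} (S : Finset ι) (w t : ι → ℝ) (hw : ∀ i ∈ S, 0 ≤ w i) (H : ℕ) (hH : 1 ≤ H)
    (B : ℝ) (hB : ∀ h : ℕ, 1 ≤ h → h ≤ H → ‖∑ i ∈ S, (w i : ℂ) * e (h * t i)‖ ≤ B) (u ℓ δ : ℝ)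
    (h0 : 0 ≤ ℓ) (h1 : ℓ ≤ 1) (hδ : 0 < δ) :
    |∑ i ∈ S, (if Int.fract (t i - u) < ℓ then w i else 0) - ℓ * ∑ i ∈ S, w i| ≤
      δ * ∑ i ∈ S, w i + (B + (∑ i ∈ S, w i) / H) / (3 * δ) := by
  have h2 := arc_le S w t hw H hH B hB u ℓ δ h0 h1 hδ
  have h3 := arc_le S w t hw H hH B hB (u + ℓ) (1 - ℓ) δ (by linarith) (by linarith) hδ
  have h4 : ∑ i ∈ S, (if Int.fract (t i - u) < ℓ then w i else 0) +
      ∑ i ∈ S, (if Int.fract (t i - (u + ℓ)) < 1 - ℓ then w i else 0) = ∑ i ∈ S, w i := by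
    rw [← sum_add_distrib]
    refine sum_congr rfl fun i _ => ?_
    set y := t i - u with hy
    have e1 : t i - (u + ℓ) = y - ℓ := by rw [hy]; ring
    rw [e1]
    have hf0 := Int.fract_nonneg y
    have hf1 := Int.fract_lt_one y
    have hyf : y = Int.fract y + ⌊y⌋ := (Int.fract_add_floor y).symm
    by_cases hlt : Int.fract y < ℓ
    · have h5 : Int.fract (y - ℓ) = Int.fract y - ℓ + 1 := by
        rw [Int.fract_eq_iff]
        refine ⟨by linarith, by linarith, ⌊y⌋ - 1, ?_⟩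
        push_cast
        linarith
      rw [if_pos hlt, if_neg (by rw [h5]; linarith), add_zero]
    · have h5 : Int.fract (y - ℓ) = Int.fract y - ℓ := by
        rw [Int.fract_eq_iff]
        have := not_lt.1 hlt
        refine ⟨by linarith, by linarith, ⌊y⌋, ?_⟩
        linarith
      rw [if_neg hlt, if_pos (by rw [h5]; linarith), zero_add]
  rw [abs_le]
  constructor <;> linarith

end Pool.Agent.V8H31.ES
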