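import Pool.Agent.V8H31.ES.Beta

/-!
# Arcs with bounded real or complex weights
-/

set_option autoImplicit false

namespace Pool.Agent.V8H31.ES

open Finset Real

/-- sums of second Bernoulli functions with real weights against exponential sums -/
lemma sum_btR {ι : Type*} (S : Finset ι) (w t : ι → ℝ) (hw : ∀ i ∈ S, |w i| ≤ 1) (H : ℕ) (hH : 1 ≤ H)
    (B : ℝ) (hB : ∀ h : ℕ, 1 ≤ h → h ≤ H → ‖∑ i ∈ S, (w i : ℂ) * e (h * t i)‖ ≤ B) (s : ℝ) :
    |∑ i ∈ S, w i * bt (t i - s)| ≤ (B + (#S : ℝ) / H) / 6 := by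
  set W : ℝ := ((#S : ℕ) : ℝ) with hW
  have hW0 : 0 ≤ W := Nat.cast_nonneg _
  have hHr : (1 : ℝ) ≤ H := by exact_mod_cast hH
  have hB0 : 0 ≤ B := (norm_nonneg _).trans (hB 1 le_rfl hH)
  have hs1 : HasSum (fun n : ℕ => 1 / (n : ℝ) ^ 2 * ∑ i ∈ S, w i * Real.cos (2 * π * (n * (t i - s))))
      (∑ i ∈ S, w i * (π ^ 2 * bt (t i - s))) := by
    have h1 : HasSum (fun n : ℕ => ∑ i ∈ S, w i * (1 / (n : ℝ) ^ 2 * Real.cos (2 * π * (n * (t i - s)))))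
        (∑ i ∈ S, w i * (π ^ 2 * bt (t i - s))) :=
      hasSum_sum fun i _ => (bt_hasSum (t i - s)).mul_left (w i)
    convert h1 using 2 with n
    rw [mul_sum]
    refine sum_congr rfl fun i _ => ?_
    ring
  set c : ℕ → ℝ := fun n => ∑ i ∈ S, w i * Real.cos (2 * π * (n * (t i - s))) with hc
  have hcW : ∀ n, |c n| ≤ W := by
    intro n
    have h1 : |c n| ≤ ∑ i ∈ S, (1 : ℝ) := by
      refine (abs_sum_le_sum_abs _ _).trans (sum_le_sum fun i hi => ?_)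
      rw [abs_mul]
      have h1 := Real.abs_cos_le_one (2 * π * (n * (t i - s)))
      have h2 := hw i hi
      have h3 := abs_nonneg (w i)
      have h4 := abs_nonneg (Real.cos (2 * π * (n * (t i - s))))
      nlinarith
    rwa [sum_const, nsmul_eq_mul, mul_one] at h1
  have hcB : ∀ n, 1 ≤ n → n ≤ H → |c n| ≤ B := by
    intro n h1 h2
    have h3 : c n = (e (-(n * s)) * ∑ i ∈ S, (w i : ℂ) * e (n * t i)).re := by
      rw [hc, mul_sum, Complex.re_sum]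
      refine sum_congr rfl fun i _ => ?_
      have h4 : e (-(n * s)) * ((w i : ℂ) * e (n * t i)) = (w i : ℂ) * e (n * (t i - s)) := by
        have : (n : ℝ) * (t i - s) = -(n * s) + n * t i := by ring
        rw [this, e_add]; ring
      rw [h4, Complex.re_ofReal_mul, e_re]
    rw [h3]
    refine (Complex.abs_re_le_norm _).trans ?_
    rw [norm_mul, norm_e, one_mul]
    exact hB n h1 h2
  have hsm : Summable (fun n : ℕ => 1 / (n : ℝ) ^ 2) := Real.summable_one_div_nat_pow.2 one_lt_two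
  have hπ : 9 ≤ π ^ 2 := by nlinarith [Real.pi_gt_three]
  -- split
  have h5 : ∑ i ∈ S, w i * (π ^ 2 * bt (t i - s)) = π ^ 2 * ∑ i ∈ S, w i * bt (t i - s) := by
    rw [mul_sum]; exact sum_congr rfl fun i _ => by ring
  rw [h5] at hs1
  have hsm2 : Summable (fun n : ℕ => 1 / (n : ℝ) ^ 2 * c n) := hs1.summable
  have h6 : π ^ 2 * ∑ i ∈ S, w i * bt (t i - s) =
      ∑ n ∈ range (H + 1), 1 / (n : ℝ) ^ 2 * c n + ∑' n : ℕ, 1 / ((n + (H + 1) : ℕ) : ℝ) ^ 2 * c (n + (H + 1)) := by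
    rw [← hs1.tsum_eq, ← hsm2.sum_add_tsum_nat_add (H + 1)]
  have h7 : |∑ n ∈ range (H + 1), 1 / (n : ℝ) ^ 2 * c n| ≤ B * (π ^ 2 / 6) := by
    have h8 : |∑ n ∈ range (H + 1), 1 / (n : ℝ) ^ 2 * c n| ≤ ∑ n ∈ range (H + 1), 1 / (n : ℝ) ^ 2 * B := by
      refine (abs_sum_le_sum_abs _ _).trans (sum_le_sum fun n hn => ?_)
      rw [mem_range] at hn
      rcases Nat.eq_zero_or_pos n with h9 | h9
      · subst h9; simp
      · rw [abs_mul, abs_of_nonneg (by positivity)]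
        have := hcB n h9 (by omega)
        gcongr
    refine h8.trans ?_
    rw [← sum_mul, mul_comm]
    have h9 : ∑ n ∈ range (H + 1), 1 / (n : ℝ) ^ 2 ≤ π ^ 2 / 6 := by
      rw [← hasSum_zeta_two.tsum_eq]
      exact hsm.sum_le_tsum _ (fun n _ => by positivity)
    gcongr
  have h8 : |∑' n : ℕ, 1 / ((n + (H + 1) : ℕ) : ℝ) ^ 2 * c (n + (H + 1))| ≤ W * (1 / H) := by
    have hsm3 : Summable (fun n : ℕ => 1 / ((n + (H + 1) : ℕ) : ℝ) ^ 2) :=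
      (summable_nat_add_iff (f := fun n : ℕ => 1 / (n : ℝ) ^ 2) (H + 1)).2 hsm
    have hsm4 : Summable (fun n : ℕ => W * (1 / ((n + (H + 1) : ℕ) : ℝ) ^ 2)) := hsm3.mul_left W
    have h9 : ∀ n : ℕ, ‖1 / ((n + (H + 1) : ℕ) : ℝ) ^ 2 * c (n + (H + 1))‖ ≤
        W * (1 / ((n + (H + 1) : ℕ) : ℝ) ^ 2) := by
      intro n
      rw [Real.norm_eq_abs, abs_mul, abs_of_nonneg (by positivity), mul_comm]
      have := hcW (n + (H + 1))
      gcongr
    have h10 := tsum_of_norm_bounded hsm4.hasSum h9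
    rw [Real.norm_eq_abs, tsum_mul_left] at h10
    refine h10.trans ?_
    have := sum_sq_tail H hH
    gcongr
  have h9 : |π ^ 2 * ∑ i ∈ S, w i * bt (t i - s)| ≤ B * (π ^ 2 / 6) + W * (1 / H) := by
    rw [h6]
    exact (abs_add_le _ _).trans (add_le_add h7 h8)
  rw [abs_mul, abs_of_nonneg (by positivity : (0 : ℝ) ≤ π ^ 2)] at h9
  have h10 : W * (1 / H) ≤ π ^ 2 * (W / H / 6) := by
    have h11 : 0 ≤ W / H := by positivity
    have h12 : W * (1 / H) = W / H := by ring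
    rw [h12]
    nlinarith
  have h11 : π ^ 2 * |∑ i ∈ S, w i * bt (t i - s)| ≤ π ^ 2 * ((B + W / H) / 6) := by
    have : π ^ 2 * ((B + W / H) / 6) = B * (π ^ 2 / 6) + π ^ 2 * (W / H / 6) := by ring
    linarith
  exact le_of_mul_le_mul_left h11 (by positivity)

/-- arcs with bounded real weights -/
theorem arcR {ι : Type*} (S : Finset ι) (w t : ι → ℝ) (hw : ∀ i ∈ S, |w i| ≤ 1) (H : ℕ) (hH : 1 ≤ H)
    (B : ℝ) (hB : ∀ h : ℕ, 1 ≤ h → h ≤ H → ‖∑ i ∈ S, (w i : ℂ) * e (h * t i)‖ ≤ B)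
    (hB1 : ∀ h : ℕ, 1 ≤ h → h ≤ H → ‖∑ i ∈ S, e (h * t i)‖ ≤ B) (ℓ δ : ℝ)
    (h0 : 0 ≤ ℓ) (h1 : ℓ ≤ 1) (hδ : 0 < δ) :
    |∑ i ∈ S, (if Int.fract (t i) < ℓ then w i else 0) - ℓ * ∑ i ∈ S, w i| ≤
      3 * δ * #S + (B + (#S : ℝ) / H) / δ := by
  set W : ℝ := ((#S : ℕ) : ℝ) with hW
  have hW0 : 0 ≤ W := Nat.cast_nonneg _
  have hB0 : 0 ≤ B := (norm_nonneg _).trans (hB 1 le_rfl hH)
  set D : ℝ := B + W / H with hD
  have hD0 : 0 ≤ D := by positivity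
  have hone : ∑ i ∈ S, (1 : ℝ) = W := by rw [sum_const, nsmul_eq_mul, mul_one]
  -- the constant weight
  have harc := arc S (fun _ => 1) t (fun _ _ => zero_le_one) H hH B (fun h hh1 hhH => by
    have h3 := hB1 h hh1 hhH
    simpa using h3) 0 ℓ δ h0 h1 hδ
  rw [hone] at harc
  have harc1 := (abs_le.1 harc).1
  -- the trapezoid
  set Tr : ℝ → ℝ := fun y => (ℓ + δ) - (bt (y + δ) - bt y - bt (y - ℓ) + bt (y - ℓ - δ)) / (2 * δ) with hTr
  have htrap : ∀ y, (if Int.fract y < ℓ then (1 : ℝ) else 0) ≤ Tr y := fun y => trap y ℓ δ h0 h1 hδ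
  have hsumTr : ∀ v : ι → ℝ, ∑ i ∈ S, v i * Tr (t i) = (ℓ + δ) * ∑ i ∈ S, v i -
      (∑ i ∈ S, v i * bt (t i - (-δ)) - ∑ i ∈ S, v i * bt (t i - 0) -
        ∑ i ∈ S, v i * bt (t i - ℓ) + ∑ i ∈ S, v i * bt (t i - (ℓ + δ))) / (2 * δ) := by
    intro v
    rw [mul_sum, ← sum_sub_distrib, ← sum_sub_distrib, ← sum_add_distrib, sum_div,
      ← sum_sub_distrib]
    refine sum_congr rfl fun i _ => ?_
    have e1 : t i - (-δ) = t i + δ := by ring
    have e2 : t i - 0 = t i := by ring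
    have e3 : t i - (ℓ + δ) = t i - ℓ - δ := by ring
    rw [e1, e2, e3, hTr]
    ring
  have herr : ∀ v : ι → ℝ, (∀ s, |∑ i ∈ S, v i * bt (t i - s)| ≤ D / 6) →
      |∑ i ∈ S, v i * Tr (t i) - (ℓ + δ) * ∑ i ∈ S, v i| ≤ D / (3 * δ) := by
    intro v hv
    rw [hsumTr v]
    have a1 := abs_le.1 (hv (-δ))
    have a2 := abs_le.1 (hv 0)
    have a3 := abs_le.1 (hv ℓ)
    have a4 := abs_le.1 (hv (ℓ + δ))
    set X := ∑ i ∈ S, v i * bt (t i - (-δ)) - ∑ i ∈ S, v i * bt (t i - 0) -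
        ∑ i ∈ S, v i * bt (t i - ℓ) + ∑ i ∈ S, v i * bt (t i - (ℓ + δ)) with hX
    have h2 : |X| ≤ 2 * D / 3 := by
      rw [abs_le]; constructor <;> linarith [a1.1, a1.2, a2.1, a2.2, a3.1, a3.2, a4.1, a4.2]
    have h3 : (ℓ + δ) * ∑ i ∈ S, v i - X / (2 * δ) - (ℓ + δ) * ∑ i ∈ S, v i = -(X / (2 * δ)) := by ring
    rw [h3, abs_neg, abs_div, abs_of_pos (by positivity : 0 < 2 * δ)]
    calc |X| / (2 * δ) ≤ (2 * D / 3) / (2 * δ) := by gcongr
      _ = D / (3 * δ) := by field_simp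
  have h2 := herr (fun _ => 1) (fun s => by
    have h3 := sum_btR S (fun _ => 1) t (fun _ _ => by simp) H hH B (fun h hh1 hhH => by
      have h3 := hB1 h hh1 hhH
      simpa using h3) s
    exact h3)
  have h3 := herr w (fun s => sum_btR S w t hw H hH B hB s)
  rw [hone] at h2
  simp only [one_mul, sub_zero] at h2 harc1
  -- comparison of the indicator and the trapezoid
  have h4 : |∑ i ∈ S, (if Int.fract (t i) < ℓ then w i else 0) - ∑ i ∈ S, w i * Tr (t i)| ≤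
      ∑ i ∈ S, Tr (t i) - ∑ i ∈ S, (if Int.fract (t i) < ℓ then (1 : ℝ) else 0) := by
    rw [← sum_sub_distrib, ← sum_sub_distrib]
    refine (abs_sum_le_sum_abs _ _).trans (sum_le_sum fun i hi => ?_)
    have h5 : (if Int.fract (t i) < ℓ then w i else 0) - w i * Tr (t i) =
        -(w i * (Tr (t i) - (if Int.fract (t i) < ℓ then (1 : ℝ) else 0))) := by
      split_ifs <;> ring
    rw [h5, abs_neg, abs_mul]
    have h6 := htrap (t i)
    rw [abs_of_nonneg (by linarith : 0 ≤ Tr (t i) - (if Int.fract (t i) < ℓ then (1 : ℝ) else 0))]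
    have h7 := hw i hi
    have h8 : 0 ≤ Tr (t i) - (if Int.fract (t i) < ℓ then (1 : ℝ) else 0) := by linarith
    nlinarith [abs_nonneg (w i)]
  have h5 : ∑ i ∈ S, Tr (t i) - ∑ i ∈ S, (if Int.fract (t i) < ℓ then (1 : ℝ) else 0) ≤
      2 * δ * W + 2 * (D / (3 * δ)) := by
    have := (abs_le.1 h2).2
    linarith
  have h6 : |(ℓ + δ) * ∑ i ∈ S, w i - ℓ * ∑ i ∈ S, w i| ≤ δ * W := by
    have h7 : (ℓ + δ) * ∑ i ∈ S, w i - ℓ * ∑ i ∈ S, w i = δ * ∑ i ∈ S, w i := by ring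
    rw [h7, abs_mul, abs_of_pos hδ]
    have h8 : |∑ i ∈ S, w i| ≤ W := by
      rw [← hone]
      exact (abs_sum_le_sum_abs _ _).trans (sum_le_sum fun i hi => hw i hi)
    gcongr
  have h7 : ∑ i ∈ S, (if Int.fract (t i) < ℓ then w i else 0) - ℓ * ∑ i ∈ S, w i =
      (∑ i ∈ S, (if Int.fract (t i) < ℓ then w i else 0) - ∑ i ∈ S, w i * Tr (t i)) +
      (∑ i ∈ S, w i * Tr (t i) - (ℓ + δ) * ∑ i ∈ S, w i) +
      ((ℓ + δ) * ∑ i ∈ S, w i - ℓ * ∑ i ∈ S, w i) := by ring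
  rw [h7]
  have h8 : D / δ = 3 * (D / (3 * δ)) := by field_simp
  rw [h8]
  refine (abs_add_le _ _).trans ?_
  have h9 := abs_add_le (∑ i ∈ S, (if Int.fract (t i) < ℓ then w i else 0) - ∑ i ∈ S, w i * Tr (t i))
    (∑ i ∈ S, w i * Tr (t i) - (ℓ + δ) * ∑ i ∈ S, w i)
  linarith

/-- arcs with bounded complex weights -/
theorem arcC {ι : Type*} (S : Finset ι) (w : ι → ℂ) (t : ι → ℝ) (hw : ∀ i ∈ S, ‖w i‖ ≤ 1) (H : ℕ)
    (hH : 1 ≤ H) (B : ℝ) (hB : ∀ h : ℕ, 1 ≤ h → h ≤ H → ‖∑ i ∈ S, w i * e (h * t i)‖ ≤ B)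
    (hB' : ∀ h : ℕ, 1 ≤ h → h ≤ H → ‖∑ i ∈ S, (starRingEnd ℂ) (w i) * e (h * t i)‖ ≤ B)
    (hB1 : ∀ h : ℕ, 1 ≤ h → h ≤ H → ‖∑ i ∈ S, e (h * t i)‖ ≤ B) (ℓ δ : ℝ)
    (h0 : 0 ≤ ℓ) (h1 : ℓ ≤ 1) (hδ : 0 < δ) :
    ‖∑ i ∈ S, (if Int.fract (t i) < ℓ then w i else 0) - ℓ * ∑ i ∈ S, w i‖ ≤
      2 * (3 * δ * #S + (B + (#S : ℝ) / H) / δ) := by
  have hre : ∀ h : ℕ, 1 ≤ h → h ≤ H → ‖∑ i ∈ S, (((w i).re : ℝ) : ℂ) * e (h * t i)‖ ≤ B := by
    intro h hh1 hhH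
    have h2 : ∑ i ∈ S, (((w i).re : ℝ) : ℂ) * e (h * t i) =
        (∑ i ∈ S, w i * e (h * t i) + ∑ i ∈ S, (starRingEnd ℂ) (w i) * e (h * t i)) / 2 := by
      rw [← sum_add_distrib, sum_div]
      refine sum_congr rfl fun i _ => ?_
      rw [Complex.re_eq_add_conj]
      ring
    rw [h2, norm_div, Complex.norm_ofNat]
    have h3 := norm_add_le (∑ i ∈ S, w i * e (h * t i)) (∑ i ∈ S, (starRingEnd ℂ) (w i) * e (h * t i))
    have h4 := hB h hh1 hhH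
    have h5 := hB' h hh1 hhH
    linarith
  have him : ∀ h : ℕ, 1 ≤ h → h ≤ H → ‖∑ i ∈ S, (((w i).im : ℝ) : ℂ) * e (h * t i)‖ ≤ B := by
    intro h hh1 hhH
    have h2 : ∑ i ∈ S, (((w i).im : ℝ) : ℂ) * e (h * t i) =
        (∑ i ∈ S, w i * e (h * t i) - ∑ i ∈ S, (starRingEnd ℂ) (w i) * e (h * t i)) / (2 * Complex.I) := by
      rw [← sum_sub_distrib, sum_div]
      refine sum_congr rfl fun i _ => ?_
      rw [Complex.im_eq_sub_conj]
      ring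
    rw [h2, norm_div, norm_mul, Complex.norm_ofNat, Complex.norm_I, mul_one]
    have h3 := norm_sub_le (∑ i ∈ S, w i * e (h * t i)) (∑ i ∈ S, (starRingEnd ℂ) (w i) * e (h * t i))
    have h4 := hB h hh1 hhH
    have h5 := hB' h hh1 hhH
    linarith
  have r1 := arcR S (fun i => (w i).re) t (fun i hi => (Complex.abs_re_le_norm _).trans (hw i hi)) H hH B
    hre hB1 ℓ δ h0 h1 hδ
  have r2 := arcR S (fun i => (w i).im) t (fun i hi => (Complex.abs_im_le_norm _).trans (hw i hi)) H hH B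
    him hB1 ℓ δ h0 h1 hδ
  set Xc := ∑ i ∈ S, (if Int.fract (t i) < ℓ then w i else 0) - (ℓ : ℂ) * ∑ i ∈ S, w i with hX
  have e1 : Xc.re = ∑ i ∈ S, (if Int.fract (t i) < ℓ then (w i).re else 0) - ℓ * ∑ i ∈ S, (w i).re := by
    rw [hX, Complex.sub_re, Complex.re_sum, Complex.re_ofReal_mul, Complex.re_sum]
    congr 1
    refine sum_congr rfl fun i _ => ?_
    split_ifs <;> simp
  have e2 : Xc.im = ∑ i ∈ S, (if Int.fract (t i) < ℓ then (w i).im else 0) - ℓ * ∑ i ∈ S, (w i).im := by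
    rw [hX, Complex.sub_im, Complex.im_sum, Complex.im_ofReal_mul, Complex.im_sum]
    congr 1
    refine sum_congr rfl fun i _ => ?_
    split_ifs <;> simp
  have h2 := Complex.norm_le_abs_re_add_abs_im Xc
  rw [e1, e2] at h2
  linarith

end Pool.Agent.V8H31.ES
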