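import Mathlib

/-!
# Numbers which are badly approximable at one scale
-/

set_option autoImplicit false

namespace Pool.Agent.V8H31.ES

open Finset Real

/-- no `m ≤ Z` has `m x` within `Z / N` of an integer -/
def Far (x Z : ℝ) (N : ℕ) : Prop :=
  ∀ (m : ℕ) (a : ℤ), 1 ≤ m → (m : ℝ) ≤ Z → Z / N < |(m : ℝ) * x - a|

/-- simultaneous measure: fractions with the common denominator `q` -/
def Meas (T : Finset ℕ) (x : ℕ → ℝ) (μ : ℕ) (c : ℝ) : Prop :=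
  ∀ (a : ℕ → ℤ) (q : ℕ), 0 < q → ∃ j ∈ T, c / (q : ℝ) ^ μ ≤ |x j - (a j : ℝ) / q|

lemma Far.mono {x Z Z' : ℝ} {N : ℕ} (h : Far x Z N) (hZ : Z' ≤ Z) : Far x Z' N := by
  intro m a hm hmZ
  refine lt_of_le_of_lt ?_ (h m a hm (hmZ.trans hZ))
  gcongr

lemma Far.neg {x Z : ℝ} {N : ℕ} (h : Far x Z N) : Far (-x) Z N := by
  intro m a hm hmZ
  have h1 := h m (-a) hm hmZ
  have h2 : (m : ℝ) * (-x) - a = -((m : ℝ) * x - (-a : ℤ)) := by push_cast; ring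
  rw [h2, abs_neg]
  exact h1

/-- the numbers are not all well approximable at the same scale -/
theorem exists_far (T : Finset ℕ) (x : ℕ → ℝ) (μ : ℕ) (c : ℝ) (hm : Meas T x μ c) (Z : ℝ)
    (hZ : 1 ≤ Z) (N : ℕ) (hN : 1 ≤ N) (h : Z ^ (T.card * μ + 1) < c * N) : ∃ j ∈ T, Far (x j) Z N := by
  classical
  by_contra hcon
  push Not at hcon
  have h1 : ∀ j : ℕ, ∃ (m : ℕ) (a : ℤ), 1 ≤ m ∧ (j ∈ T → (m : ℝ) ≤ Z ∧ |(m : ℝ) * x j - a| ≤ Z / N) := by
    intro j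
    by_cases hj : j ∈ T
    · have h2 := hcon j hj
      unfold Far at h2
      push Not at h2
      obtain ⟨m, a, hm1, hm2, hm3⟩ := h2
      exact ⟨m, a, hm1, fun _ => ⟨hm2, hm3⟩⟩
    · exact ⟨1, 0, le_rfl, fun hj' => absurd hj' hj⟩
  choose m a hm1 hm2 using h1
  have hN0 : (0 : ℝ) < N := by exact_mod_cast hN
  set q : ℕ := ∏ j ∈ T, m j with hq
  have hq0 : 0 < q := prod_pos fun j _ => hm1 j
  have hqZ : (q : ℝ) ≤ Z ^ T.card := by
    rw [hq]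
    push_cast
    refine (prod_le_prod (fun j _ => Nat.cast_nonneg _) fun j hj => (hm2 j hj).1).trans ?_
    rw [prod_const]
  obtain ⟨j, hj, h3⟩ := hm (fun i => a i * ((q / m i : ℕ) : ℤ)) q hq0
  have hdvd : m j ∣ q := dvd_prod_of_mem m hj
  obtain ⟨k, hk⟩ := hdvd
  have hmj : (0 : ℝ) < m j := by exact_mod_cast hm1 j
  have hk0 : 0 < k := by
    rcases Nat.eq_zero_or_pos k with h0 | h0
    · subst h0; omega
    · exact h0
  have hkr : (0 : ℝ) < k := by exact_mod_cast hk0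
  have hqk : q / m j = k := by rw [hk]; exact Nat.mul_div_cancel_left k (hm1 j)
  have h4 : x j - ((a j * ((q / m j : ℕ) : ℤ) : ℤ) : ℝ) / q = ((m j : ℝ) * x j - a j) / m j := by
    rw [hqk, hk]
    push_cast
    field_simp
  rw [h4, abs_div, abs_of_pos hmj] at h3
  have h5 : |(m j : ℝ) * x j - a j| / m j ≤ Z / N := by
    rw [div_le_iff₀ hmj]
    have h6 := (hm2 j hj).2
    have h7 : (1 : ℝ) ≤ m j := by exact_mod_cast hm1 j
    have h8 : 0 ≤ Z / N := by positivity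
    nlinarith
  have h6 : c / (q : ℝ) ^ μ ≤ Z / N := h3.trans h5
  have hqr : (0 : ℝ) < (q : ℝ) ^ μ := by
    have : (0 : ℝ) < q := by exact_mod_cast hq0
    positivity
  rw [div_le_div_iff₀ hqr hN0] at h6
  have h7 : Z * (q : ℝ) ^ μ ≤ Z ^ (T.card * μ + 1) := by
    calc Z * (q : ℝ) ^ μ ≤ Z * (Z ^ T.card) ^ μ := by gcongr
      _ = Z ^ (T.card * μ + 1) := by rw [pow_succ, pow_mul]; ring
  linarith

/-- the inverse of a number in `[1, 2]` -/
lemma Far.inv {β Z Z' : ℝ} {N : ℕ} (h : Far β Z N) (hβ1 : 1 ≤ β) (hβ2 : β ≤ 2) (hZ : 2 * Z' ≤ Z)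
    (hN : 1 ≤ N) (hZN : Z' < N) : Far (1 / β) Z' (2 * N) := by
  intro m a hm hmZ
  have hN0 : (0 : ℝ) < N := by exact_mod_cast hN
  have hβ0 : 0 < β := by linarith
  have hmr : (1 : ℝ) ≤ m := by exact_mod_cast hm
  have hZ'0 : 0 ≤ Z' := by linarith
  by_contra hcon
  have h1 : |(m : ℝ) * (1 / β) - a| ≤ Z' / ((2 * N : ℕ) : ℝ) := not_lt.1 hcon
  push_cast at h1
  have h1' : Z' / (2 * N) < 1 / 2 := by
    rw [div_lt_div_iff₀ (by positivity) (by norm_num)]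
    linarith
  have h2 := abs_le.1 h1
  have hmβ : 1 / 2 ≤ (m : ℝ) * (1 / β) := by
    rw [mul_one_div, div_le_div_iff₀ (by norm_num) hβ0]
    linarith
  have ha0 : (0 : ℝ) < a := by linarith [h2.2]
  have ha0' : 0 < a := by exact_mod_cast ha0
  have hmβ2 : (m : ℝ) * (1 / β) ≤ m := by
    rw [mul_one_div, div_le_iff₀ hβ0]
    nlinarith
  have ha2 : (a : ℝ) ≤ 2 * m := by linarith [h2.1]
  obtain ⟨b, rfl⟩ := Int.eq_ofNat_of_zero_le ha0'.le
  have hb1 : 1 ≤ b := by omega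
  have hbZ : (b : ℝ) ≤ Z := by
    have : ((b : ℤ) : ℝ) = (b : ℝ) := by norm_cast
    rw [this] at ha2
    linarith
  have h3 := h b m hb1 hbZ
  have h4 : (b : ℝ) * β - ((m : ℤ) : ℝ) = -(((m : ℝ) * (1 / β) - ((b : ℤ) : ℝ)) * β) := by
    push_cast
    field_simp
    ring
  rw [h4, abs_neg, abs_mul, abs_of_pos hβ0] at h3
  have h5 : |(m : ℝ) * (1 / β) - ((b : ℤ) : ℝ)| * β ≤ Z' / (2 * N) * 2 := by gcongr
  have h6 : Z' / (2 * N) * 2 = Z' / N := by field_simp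
  have h7 : Z' / N ≤ Z / N := by
    have : Z' ≤ Z := by linarith
    gcongr
  linarith

end Pool.Agent.V8H31.ES
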