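import Pool.Agent.V8H31.ES.Beta
import Pool.Agent.V8H31.ES.Dio
import Pool.Agent.TH869.LPS.WeylQ

/-!
# Weyl sums for a leading coefficient which is badly approximable at one scale
-/

set_option autoImplicit false

namespace Pool.Agent.V8H31.ES

open Finset Real Polynomial

lemma lit_e_eq (x : ℝ) : Pool.Agent.H332R2.Lit.e x = e x := rfl

theorem poly_bound (d : ℕ) : ∃ E : ℕ, 1 ≤ E ∧ ∃ C : ℝ, 0 ≤ C ∧ ∀ N : ℕ, 1 ≤ N → ∀ Y x : ℝ, 1 ≤ Y →
    Far x (Y ^ E) N → ∀ M : ℕ, M ≤ N → ∀ h : ℕ, 1 ≤ h → (h : ℝ) ≤ Y →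
    ∀ P : ℝ[X], P.natDegree ≤ d + 1 → P.coeff (d + 1) = x →
    ‖∑ n ∈ range M, e (h * P.eval (n : ℝ))‖ ≤ C * (N / Y) := by
  obtain ⟨K, hK1, hK⟩ := Pool.Agent.TH869.LPS.weylQ d
  refine ⟨K + 2, by omega, K, by positivity, fun N hN Y x hY hfar M hM h hh1 hhY P hP hPx => ?_⟩
  have hNr : (1 : ℝ) ≤ N := by exact_mod_cast hN
  have hN0 : (0 : ℝ) < N := by linarith
  have hY0 : 0 < Y := by linarith
  have hMN : (M : ℝ) ≤ N := by exact_mod_cast hM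
  have hKr : (1 : ℝ) ≤ K := by exact_mod_cast hK1
  have htriv : ‖∑ n ∈ range M, e (h * P.eval (n : ℝ))‖ ≤ M := by
    refine (norm_sum_le _ _).trans ?_
    simp only [norm_e, sum_const, card_range, nsmul_eq_mul, mul_one, le_refl]
  rcases lt_or_ge Y K with hc1 | hc1
  · refine htriv.trans (hMN.trans ?_)
    rw [← mul_div_assoc, le_div_iff₀ hY0, mul_comm]
    gcongr
  rcases lt_or_ge ((M : ℝ) * Y) N with hc2 | hc2
  · refine htriv.trans ?_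
    have h1 : (M : ℝ) ≤ N / Y := by rw [le_div_iff₀ hY0]; exact hc2.le
    have h2 : 0 ≤ N / Y := by positivity
    nlinarith
  have hMpos : (0 : ℝ) < M := by
    by_contra hcon
    have h1 : (M : ℝ) = 0 := le_antisymm (not_lt.1 hcon) (Nat.cast_nonneg M)
    rw [h1] at hc2
    linarith
  have hM1 : 1 ≤ M := by exact_mod_cast hMpos
  have hκ : 0 < 1 / Y := by positivity
  have hκ1 : 1 / Y ≤ 1 := by rw [div_le_one hY0]; exact hY
  set R : ℝ[X] := C (h : ℝ) * P with hR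
  have h1 := hK (1 / Y) hκ hκ1 R ((natDegree_C_mul_le _ _).trans hP) M hM1 (by
    intro m hm1 hmK
    rw [one_div_one_div] at hmK ⊢
    have h2 : ((m * h : ℕ) : ℝ) ≤ Y ^ (K + 2) := by
      push_cast
      calc (m : ℝ) * h ≤ (K * Y ^ K) * Y := by gcongr
        _ ≤ (Y * Y ^ K) * Y := by gcongr
        _ = Y ^ (K + 2) := by ring
    have h3 := hfar (m * h) (round ((m : ℝ) * R.coeff (d + 1))) (Nat.mul_pos hm1 hh1) h2
    have h4 : R.coeff (d + 1) = h * x := by rw [hR, coeff_C_mul, hPx]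
    have h5 : ((m * h : ℕ) : ℝ) * x = (m : ℝ) * R.coeff (d + 1) := by rw [h4]; push_cast; ring
    rw [h5] at h3
    refine le_trans ?_ h3.le
    rw [div_le_div_iff₀ hMpos hN0]
    calc (K : ℝ) * Y ^ K * N ≤ Y * Y ^ K * (M * Y) := by gcongr
      _ = Y ^ (K + 2) * M := by ring)
  have h2 : ∑ n ∈ range M, e (h * P.eval (n : ℝ)) =
      ∑ l ∈ range M, Pool.Agent.H332R2.Lit.e (R.eval (l : ℝ)) := by
    refine sum_congr rfl fun n _ => ?_
    rw [lit_e_eq, hR, eval_mul, eval_C]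
  rw [h2]
  refine h1.trans ?_
  have h3 : 1 / Y * (M : ℝ) ≤ N / Y := by
    rw [one_div_mul_eq_div]
    gcongr
  have h4 : 0 ≤ N / Y := by positivity
  nlinarith

/-- from exponential sums to arcs -/
lemma arc_pow {ι : Type*} (S : Finset ι) (t : ι → ℝ) (N : ℕ) (Y B : ℝ) (hY : 1 ≤ Y) (hS : (#S : ℝ) ≤ N)
    (hB : ∀ h : ℕ, 1 ≤ h → (h : ℝ) ≤ Y ^ 2 → ‖∑ i ∈ S, e (h * t i)‖ ≤ B * (N / Y ^ 2)) (hB0 : 0 ≤ B)
    (u ℓ : ℝ) (h0 : 0 ≤ ℓ) (h1 : ℓ ≤ 1) :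
    |(#{i ∈ S | Int.fract (t i - u) < ℓ} : ℝ) - ℓ * #S| ≤ (B + 2) * (N / Y) := by
  have hY0 : 0 < Y := by linarith
  have hY2 : 1 ≤ Y ^ 2 := one_le_pow₀ hY
  set H : ℕ := ⌊Y ^ 2⌋₊ with hH
  have hH1 : 1 ≤ H := Nat.le_floor (by simpa using hY2)
  have hHr : (1 : ℝ) ≤ H := by exact_mod_cast hH1
  have hHle : (H : ℝ) ≤ Y ^ 2 := Nat.floor_le (by positivity)
  have hHlt : Y ^ 2 < H + 1 := Nat.lt_floor_add_one _
  have h2 := arc S (fun _ => 1) t (fun _ _ => zero_le_one) H hH1 (B * (N / Y ^ 2)) (fun h hh1 hhH => by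
    have h3 := hB h hh1 (le_trans (by exact_mod_cast hhH) hHle)
    simpa using h3) u ℓ (1 / Y) h0 h1 (by positivity)
  have h3 : ∑ i ∈ S, (if Int.fract (t i - u) < ℓ then (1 : ℝ) else 0) =
      #{i ∈ S | Int.fract (t i - u) < ℓ} := by
    rw [← sum_filter, sum_const, nsmul_eq_mul, mul_one]
  have h4 : ∑ i ∈ S, (1 : ℝ) = #S := by rw [sum_const, nsmul_eq_mul, mul_one]
  rw [h3, h4] at h2
  refine h2.trans ?_
  have hS0 : (0 : ℝ) ≤ #S := Nat.cast_nonneg _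
  have h5 : 1 / Y * (#S : ℝ) ≤ N / Y := by
    rw [one_div_mul_eq_div]
    gcongr
  have h6 : (#S : ℝ) / H ≤ 2 * (N / Y ^ 2) := by
    rw [← mul_div_assoc, div_le_div_iff₀ (by linarith) (by positivity)]
    have : Y ^ 2 ≤ 2 * H := by linarith
    calc (#S : ℝ) * Y ^ 2 ≤ N * (2 * H) := by gcongr
      _ = 2 * N * H := by ring
  have h7 : (B * (N / Y ^ 2) + (#S : ℝ) / H) / (3 * (1 / Y)) ≤
      (B * (N / Y ^ 2) + 2 * (N / Y ^ 2)) / (3 * (1 / Y)) := by gcongr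
  have h8 : (B * (N / Y ^ 2) + 2 * (N / Y ^ 2)) / (3 * (1 / Y)) = (B + 2) / 3 * (N / Y) := by
    field_simp
  have h9 : 0 ≤ N / Y := by positivity
  have h10 : (B + 2) * (N / Y) - (B + 2) / 3 * (N / Y) - N / Y = (2 * B + 1) / 3 * (N / Y) := by ring
  have h11 : 0 ≤ (2 * B + 1) / 3 * (N / Y) := by positivity
  linarith

end Pool.Agent.V8H31.ES
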