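import Pool.Agent.V8H31.ES.Primes
import Pool.Agent.V8H31.ES.Poly

/-!
# Primes, Beatty sequences and polynomials for a number which is badly approximable at one scale
-/

set_option autoImplicit false

namespace Pool.Agent.V8H31.ES

open Finset Real Polynomial

/-- the primes up to `M` -/
def primesTo (M : ℕ) : Finset ℕ := {p ∈ Icc 1 M | p.Prime}

lemma logpow (ε : ℝ) (hε : 0 < ε) : ∃ K : ℝ, 0 ≤ K ∧ ∀ N : ℕ, 1 ≤ N →
    (1 + Real.log N) ^ 7 ≤ K * (N : ℝ) ^ ε := by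
  refine ⟨(1 + 1 / (ε / 7)) ^ 7, by positivity, fun N hN => ?_⟩
  have hNr : (1 : ℝ) ≤ N := by exact_mod_cast hN
  have h1 : Real.log N ≤ (N : ℝ) ^ (ε / 7) / (ε / 7) := Real.log_le_rpow_div (by linarith) (by positivity)
  have h2 : (1 : ℝ) ≤ (N : ℝ) ^ (ε / 7) := Real.one_le_rpow hNr (by positivity)
  have h3 : 1 + Real.log N ≤ (1 + 1 / (ε / 7)) * (N : ℝ) ^ (ε / 7) := by
    have : (1 + 1 / (ε / 7)) * (N : ℝ) ^ (ε / 7) = (N : ℝ) ^ (ε / 7) + (N : ℝ) ^ (ε / 7) / (ε / 7) := by ring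
    linarith
  have h4 : 0 ≤ 1 + Real.log N := by linarith [Real.log_nonneg hNr]
  calc (1 + Real.log N) ^ 7 ≤ ((1 + 1 / (ε / 7)) * (N : ℝ) ^ (ε / 7)) ^ 7 := by gcongr
    _ = (1 + 1 / (ε / 7)) ^ 7 * (N : ℝ) ^ ε := by
        rw [mul_pow, ← Real.rpow_natCast ((N : ℝ) ^ (ε / 7)) 7, ← Real.rpow_mul (by linarith)]
        congr 2
        push_cast
        field_simp

lemma rpow_pow_eq (N : ℕ) (a : ℝ) (k : ℕ) (b : ℝ) (h : a * k = b) :
    ((N : ℝ) ^ a) ^ k = (N : ℝ) ^ b := by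
  rw [← Real.rpow_natCast, ← Real.rpow_mul (Nat.cast_nonneg N), h]

lemma div_rpow_eq (N : ℕ) (hN : 1 ≤ N) (a : ℝ) : (N : ℝ) / (N : ℝ) ^ a = (N : ℝ) ^ (1 - a) := by
  have hN0 : (0 : ℝ) < N := by exact_mod_cast hN
  rw [Real.rpow_sub hN0, Real.rpow_one]

/-- primes: exponential sums and arcs -/
theorem primes_far (c0 : ℝ) (h0 : 0 < c0) (h1 : c0 ≤ 1) : ∃ C : ℝ, 0 ≤ C ∧ ∀ N : ℕ, 1 ≤ N →
    ∀ x : ℝ, Far x ((N : ℝ) ^ c0) N → ∀ M : ℕ, M ≤ N →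
    (∀ h : ℕ, 1 ≤ h → (h : ℝ) ≤ (N : ℝ) ^ (c0 / 16) →
      ‖∑ p ∈ primesTo M, e (h * (p * x))‖ ≤ C * (N : ℝ) ^ (1 - c0 / 16) ∧
      ‖∑ n ∈ Icc 1 M, ((ArithmeticFunction.vonMangoldt n : ℝ) : ℂ) * e (h * (n * x))‖ ≤
        C * (N : ℝ) ^ (1 - c0 / 16)) ∧
    (∀ u ℓ : ℝ, 0 ≤ ℓ → ℓ ≤ 1 →
      |(#((primesTo M).filter fun p : ℕ => Int.fract ((p : ℝ) * x - u) < ℓ) : ℝ) - ℓ * #(primesTo M)| ≤
        C * (N : ℝ) ^ (1 - c0 / 32)) := by
  obtain ⟨C1, hC1, hp1⟩ := vm_bound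
  obtain ⟨C2, hC2, hp2⟩ := pr_sum
  obtain ⟨K, hK0, hK⟩ := logpow (c0 / 16) (by positivity)
  refine ⟨(C1 + C2) * K + 2, by positivity, fun N hN x hfar M hM => ?_⟩
  have hNr : (1 : ℝ) ≤ N := by exact_mod_cast hN
  have hN0 : (0 : ℝ) < N := by linarith
  set Y : ℝ := (N : ℝ) ^ (c0 / 32) with hY
  have hY1 : 1 ≤ Y := Real.one_le_rpow hNr (by positivity)
  set Z : ℝ := Y ^ 2 with hZ
  have hZe : Z = (N : ℝ) ^ (c0 / 16) := rpow_pow_eq N _ 2 _ (by push_cast; ring)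
  have hZ1 : 1 ≤ Z := one_le_pow₀ hY1
  have hZ16 : Z ^ 16 = (N : ℝ) ^ c0 := by
    rw [hZe]; exact rpow_pow_eq N _ 16 _ (by push_cast; ring)
  have hZN : Z ^ 16 ≤ N := by
    rw [hZ16]
    calc (N : ℝ) ^ c0 ≤ (N : ℝ) ^ (1 : ℝ) := Real.rpow_le_rpow_of_exponent_le hNr h1
      _ = N := Real.rpow_one _
  rw [← hZ16] at hfar
  have hlog : (1 + Real.log N) ^ 7 * (N / Z ^ 2) ≤ K * (N / Z) := by
    have h2 := hK N hN
    rw [← hZe] at h2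
    have hZ0 : 0 < Z := by linarith
    calc (1 + Real.log N) ^ 7 * (N / Z ^ 2) ≤ (K * Z) * (N / Z ^ 2) := by gcongr
      _ = K * (N / Z) := by field_simp
  have hNZ : (N : ℝ) / Z = (N : ℝ) ^ (1 - c0 / 16) := by rw [hZe]; exact div_rpow_eq N hN _
  have hNY : (N : ℝ) / Y = (N : ℝ) ^ (1 - c0 / 32) := div_rpow_eq N hN _
  have hNZ0 : 0 ≤ (N : ℝ) / Z := by positivity
  have hNY0 : 0 ≤ (N : ℝ) / Y := by positivity
  have hb1 : ∀ h : ℕ, 1 ≤ h → (h : ℝ) ≤ Z →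
      ‖∑ p ∈ primesTo M, e (h * (p * x))‖ ≤ (C2 * K) * (N / Z) := by
    intro h hh1 hhZ
    refine (hp2 N hN Z x hZ1 hZN hfar M hM h hh1 hhZ).trans ?_
    rw [mul_assoc]
    gcongr
  refine ⟨fun h hh1 hhZ => ⟨?_, ?_⟩, fun u ℓ hl0 hl1 => ?_⟩
  · rw [← hZe] at hhZ
    refine (hb1 h hh1 hhZ).trans ?_
    rw [← hNZ]
    have : 0 ≤ C1 * K := by positivity
    gcongr
    nlinarith
  · rw [← hZe] at hhZ
    refine (hp1 N hN Z x hZ1 hZN hfar M hM h hh1 hhZ).trans ?_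
    rw [← hNZ]
    have h3 : C1 * ((1 + Real.log N) ^ 7 * (N / Z ^ 2)) ≤ C1 * (K * (N / Z)) := by gcongr
    have : 0 ≤ C2 * K := by positivity
    nlinarith
  · have hcard : (#(primesTo M) : ℝ) ≤ N := by
      have h3 : #(primesTo M) ≤ M := by
        refine (card_filter_le _ _).trans ?_
        rw [Nat.card_Icc]; omega
      exact_mod_cast h3.trans hM
    have h3 := arc_pow (primesTo M) (fun p => (p : ℝ) * x) N Y (C2 * K) hY1 hcard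
      (fun h hh1 hhY => hb1 h hh1 hhY) (by positivity) u ℓ hl0 hl1
    refine h3.trans ?_
    rw [← hNY]
    have : 0 ≤ C1 * K := by positivity
    gcongr
    nlinarith

/-- primes in Beatty sequences -/
lemma beatty_count (β : ℝ) (hβ : 1 < β) (M : ℕ) :
    #((Icc 1 M).filter fun n : ℕ => (⌊(n : ℝ) * β⌋₊).Prime) =
      #((primesTo ⌊(M : ℝ) * β⌋₊).filter fun p : ℕ => Int.fract ((p : ℝ) * (-(1 / β)) - 0) < 1 / β) := by
  have hβ0 : 0 < β := by linarith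
  have hinv : 1 / β < 1 := by rw [div_lt_one hβ0]; exact hβ
  have hinv0 : 0 < 1 / β := by positivity
  apply card_bij (fun (n : ℕ) _ => ⌊(n : ℝ) * β⌋₊)
  · intro n hn
    rw [mem_filter, mem_Icc] at hn
    obtain ⟨⟨hn1, hnM⟩, hpr⟩ := hn
    set p := ⌊(n : ℝ) * β⌋₊ with hp
    have hple : (p : ℝ) ≤ n * β := Nat.floor_le (by positivity)
    have hplt : (n : ℝ) * β < p + 1 := Nat.lt_floor_add_one _
    rw [mem_filter, primesTo, mem_filter, mem_Icc]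
    refine ⟨⟨⟨hpr.one_lt.le, ?_⟩, hpr⟩, ?_⟩
    · rw [hp]
      apply Nat.floor_le_floor
      have : (n : ℝ) ≤ M := by exact_mod_cast hnM
      gcongr
    · have h1 : Int.fract ((p : ℝ) * (-(1 / β)) - 0) = n - p / β := by
        rw [Int.fract_eq_iff]
        refine ⟨?_, ?_, -(n : ℤ), ?_⟩
        · rw [sub_nonneg, div_le_iff₀ hβ0]; exact hple
        · have : (n : ℝ) < (p + 1) / β := by rw [lt_div_iff₀ hβ0]; exact hplt
          have h2 : ((p : ℝ) + 1) / β = p / β + 1 / β := by ring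
          linarith
        · push_cast; ring
      rw [h1]
      have : (n : ℝ) < (p + 1) / β := by rw [lt_div_iff₀ hβ0]; exact hplt
      have h2 : ((p : ℝ) + 1) / β = p / β + 1 / β := by ring
      linarith
  · intro a ha b hb hab
    by_contra hne
    have key : ∀ a b : ℕ, a < b → ⌊(a : ℝ) * β⌋₊ < ⌊(b : ℝ) * β⌋₊ := by
      intro a b hlt
      have h1 : (a : ℝ) + 1 ≤ b := by exact_mod_cast hlt
      have h2 : (⌊(a : ℝ) * β⌋₊ : ℝ) ≤ a * β := Nat.floor_le (by positivity)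
      have h3 : (⌊(a : ℝ) * β⌋₊ : ℝ) + 1 ≤ b * β := by nlinarith
      have h4 : ⌊(a : ℝ) * β⌋₊ + 1 ≤ ⌊(b : ℝ) * β⌋₊ := Nat.le_floor (by push_cast; exact h3)
      omega
    rcases Nat.lt_or_gt_of_ne hne with h | h
    · exact absurd hab (key a b h).ne
    · exact absurd hab (key b a h).ne'
  · intro p hp
    rw [mem_filter, primesTo, mem_filter, mem_Icc] at hp
    obtain ⟨⟨⟨hp1, hpM⟩, hpr⟩, hfr⟩ := hp
    have hpr1 : (1 : ℝ) ≤ p := by exact_mod_cast hp1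
    set k : ℤ := -⌊(p : ℝ) * (-(1 / β)) - 0⌋ with hk
    have hfk : Int.fract ((p : ℝ) * (-(1 / β)) - 0) = k - p / β := by
      have h1 := Int.self_sub_floor ((p : ℝ) * (-(1 / β)) - 0)
      rw [← h1, hk]; push_cast; ring
    rw [hfk] at hfr
    have hk1 : (p : ℝ) / β ≤ k := by
      have := Int.fract_nonneg ((p : ℝ) * (-(1 / β)) - 0)
      rw [hfk] at this
      linarith
    have hk0 : (0 : ℝ) < k := lt_of_lt_of_le (by positivity) hk1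
    have hk0' : 0 < k := by exact_mod_cast hk0
    obtain ⟨n, hn⟩ := Int.eq_ofNat_of_zero_le hk0'.le
    have hkn : (k : ℝ) = n := by rw [hn]; norm_cast
    rw [hkn] at hfr hk1
    have hn1 : 1 ≤ n := by omega
    have h2 : (p : ℝ) ≤ n * β := (div_le_iff₀ hβ0).1 hk1
    have h3 : (n : ℝ) * β < p + 1 := by
      have h4 : (n : ℝ) < (p + 1) / β := by
        have h5 : ((p : ℝ) + 1) / β = p / β + 1 / β := by ring
        linarith
      exact (lt_div_iff₀ hβ0).1 h4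
    have hfl : ⌊(n : ℝ) * β⌋₊ = p := by
      rw [Nat.floor_eq_iff (by positivity)]
      exact ⟨h2, h3⟩
    refine ⟨n, ?_, hfl⟩
    rw [mem_filter, mem_Icc, hfl]
    refine ⟨⟨hn1, ?_⟩, hpr⟩
    by_contra hcon
    have h5 : (M : ℝ) + 1 ≤ n := by exact_mod_cast not_le.1 hcon
    have h6 : (p : ℝ) ≤ M * β := by
      have : (p : ℝ) ≤ ⌊(M : ℝ) * β⌋₊ := by exact_mod_cast hpM
      exact this.trans (Nat.floor_le (by positivity))
    nlinarith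

/-- primes in Beatty sequences, the count -/
theorem beatty_far (c0 : ℝ) (h0 : 0 < c0) (h1 : c0 ≤ 1) : ∃ (C : ℝ) (N₀ : ℕ), 0 ≤ C ∧ ∀ N : ℕ, N₀ ≤ N →
    ∀ β : ℝ, 1 < β → β ≤ 2 → Far β ((N : ℝ) ^ c0) N → ∀ M : ℕ, M ≤ N →
      |(#((Icc 1 M).filter fun n : ℕ => (⌊(n : ℝ) * β⌋₊).Prime) : ℝ) - #(primesTo ⌊(M : ℝ) * β⌋₊) / β| ≤
        C * (N : ℝ) ^ (1 - c0 / 64) := by
  obtain ⟨C, hC, hp⟩ := primes_far (c0 / 2) (by positivity) (by linarith)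
  have hlim : Filter.Tendsto (fun N : ℕ => (N : ℝ) ^ (c0 / 2)) Filter.atTop Filter.atTop :=
    (tendsto_rpow_atTop (by positivity)).comp tendsto_natCast_atTop_atTop
  obtain ⟨N₀, hN₀⟩ := Filter.eventually_atTop.1 (hlim.eventually_ge_atTop 4)
  refine ⟨C * 2, N₀ + 1, by positivity, fun N hN β hβ1 hβ2 hfar M hM => ?_⟩
  have hN1 : 1 ≤ N := by omega
  have hNr : (1 : ℝ) ≤ N := by exact_mod_cast hN1
  have hN0 : (0 : ℝ) < N := by linarith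
  have hβ0 : 0 < β := by linarith
  have h4 := hN₀ N (by omega)
  have h5 : ((2 * N : ℕ) : ℝ) ^ (c0 / 2) ≤ 2 * (N : ℝ) ^ (c0 / 2) := by
    push_cast
    rw [Real.mul_rpow (by norm_num) hN0.le]
    have : (2 : ℝ) ^ (c0 / 2) ≤ 2 ^ (1 : ℝ) := Real.rpow_le_rpow_of_exponent_le (by norm_num) (by linarith)
    rw [Real.rpow_one] at this
    gcongr
  have h6 : (N : ℝ) ^ c0 = (N : ℝ) ^ (c0 / 2) * (N : ℝ) ^ (c0 / 2) := by
    rw [← Real.rpow_add hN0]; congr 1; ring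
  have h7 : 2 * ((2 * N : ℕ) : ℝ) ^ (c0 / 2) ≤ (N : ℝ) ^ c0 := by
    rw [h6]
    nlinarith
  have h8 : (N : ℝ) ^ c0 ≤ N := by
    calc (N : ℝ) ^ c0 ≤ (N : ℝ) ^ (1 : ℝ) := Real.rpow_le_rpow_of_exponent_le hNr h1
      _ = N := Real.rpow_one _
  have h9 : 0 ≤ ((2 * N : ℕ) : ℝ) ^ (c0 / 2) := by positivity
  have h10 : (0 : ℝ) < ((2 * N : ℕ) : ℝ) ^ (c0 / 2) := by positivity
  have hfar2 := (hfar.inv hβ1.le hβ2 h7 hN1 (by linarith)).neg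
  have hMβ : ⌊(M : ℝ) * β⌋₊ ≤ 2 * N := by
    apply Nat.floor_le_of_le
    push_cast
    have hMr : (M : ℝ) ≤ N := by exact_mod_cast hM
    nlinarith
  have h11 := (hp (2 * N) (by omega) (-(1 / β)) hfar2 _ hMβ).2 0 (1 / β) (by positivity)
    (by rw [div_le_one hβ0]; exact hβ1.le)
  rw [← beatty_count β hβ1 M] at h11
  have h12 : (#(primesTo ⌊(M : ℝ) * β⌋₊) : ℝ) / β = 1 / β * #(primesTo ⌊(M : ℝ) * β⌋₊) := by ring
  rw [h12]
  refine h11.trans ?_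
  have h13 : ((2 * N : ℕ) : ℝ) ^ (1 - c0 / 2 / 32) ≤ 2 * (N : ℝ) ^ (1 - c0 / 64) := by
    push_cast
    rw [Real.mul_rpow (by norm_num) hN0.le]
    have e1 : 1 - c0 / 2 / 32 = 1 - c0 / 64 := by ring
    rw [e1]
    have : (2 : ℝ) ^ (1 - c0 / 64) ≤ 2 ^ (1 : ℝ) := Real.rpow_le_rpow_of_exponent_le (by norm_num) (by linarith)
    rw [Real.rpow_one] at this
    gcongr
  calc C * ((2 * N : ℕ) : ℝ) ^ (1 - c0 / 2 / 32) ≤ C * (2 * (N : ℝ) ^ (1 - c0 / 64)) := by gcongr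
    _ = C * 2 * (N : ℝ) ^ (1 - c0 / 64) := by ring

/-- polynomials -/
theorem poly_far (c0 : ℝ) (h0 : 0 < c0) (d : ℕ) (hd : 1 ≤ d) : ∃ κ : ℝ, 0 < κ ∧ ∃ C : ℝ, 0 ≤ C ∧
    ∀ N : ℕ, 1 ≤ N → ∀ x : ℝ, Far x ((N : ℝ) ^ c0) N → ∀ P : ℝ[X], P.natDegree ≤ d → P.coeff d = x →
    ∀ M : ℕ, M ≤ N →
    (∀ h : ℕ, 1 ≤ h → (h : ℝ) ≤ (N : ℝ) ^ κ →
      ‖∑ n ∈ range M, e (h * P.eval (n : ℝ))‖ ≤ C * (N : ℝ) ^ (1 - κ)) ∧
    (∀ u ℓ : ℝ, 0 ≤ ℓ → ℓ ≤ 1 →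
      |(#((range M).filter fun n : ℕ => Int.fract (P.eval (n : ℝ) - u) < ℓ) : ℝ) - ℓ * M| ≤ C * (N : ℝ) ^ (1 - κ)) := by
  obtain ⟨d, rfl⟩ : ∃ d', d = d' + 1 := ⟨d - 1, by omega⟩
  obtain ⟨E, hE1, C, hC, hp⟩ := poly_bound d
  have hEr : (1 : ℝ) ≤ E := by exact_mod_cast hE1
  have hE0 : (0 : ℝ) < E := by linarith
  refine ⟨c0 / (2 * E), by positivity, C + 2, by positivity, fun N hN x hfar P hP hPx M hM => ?_⟩
  have hNr : (1 : ℝ) ≤ N := by exact_mod_cast hN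
  have hN0 : (0 : ℝ) < N := by linarith
  set Y : ℝ := (N : ℝ) ^ (c0 / (2 * E)) with hY
  have hY1 : 1 ≤ Y := Real.one_le_rpow hNr (by positivity)
  have hY0 : 0 < Y := by linarith
  have hYE : (Y ^ 2) ^ E = (N : ℝ) ^ c0 := by
    rw [← pow_mul]
    apply rpow_pow_eq
    push_cast
    field_simp
  have hY2 : 1 ≤ Y ^ 2 := one_le_pow₀ hY1
  rw [← hYE] at hfar
  have hYY : Y ≤ Y ^ 2 := le_self_pow₀ hY1 (by norm_num)
  have hNY : (N : ℝ) / Y = (N : ℝ) ^ (1 - c0 / (2 * E)) := div_rpow_eq N hN _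
  have hNY0 : 0 ≤ (N : ℝ) / Y := by positivity
  have hb : ∀ h : ℕ, 1 ≤ h → (h : ℝ) ≤ Y ^ 2 →
      ‖∑ n ∈ range M, e (h * P.eval (n : ℝ))‖ ≤ C * (N / Y ^ 2) := fun h hh1 hhY =>
    hp N hN (Y ^ 2) x hY2 hfar M hM h hh1 hhY P hP hPx
  refine ⟨fun h hh1 hhY => ?_, fun u ℓ hl0 hl1 => ?_⟩
  · refine (hb h hh1 (hhY.trans hYY)).trans ?_
    rw [← hNY]
    have h2 : (N : ℝ) / Y ^ 2 ≤ N / Y := by gcongr
    nlinarith
  · have hcard : (#(range M) : ℝ) ≤ N := by rw [card_range]; exact_mod_cast hM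
    have h3 := arc_pow (range M) (fun n : ℕ => P.eval (n : ℝ)) N Y C hY1 hcard hb hC u ℓ hl0 hl1
    rw [card_range] at h3
    rw [← hNY]
    exact h3

/-- one of the numbers is badly approximable at each large scale; the choice does not depend on
anything else -/
theorem choice (T : Finset ℕ) (hT : T.Nonempty) (x : ℕ → ℝ) (μ : ℕ) (c : ℝ) (hc : 0 < c)
    (hm : Meas T x μ c) : ∃ (J : ℕ → ℕ) (N₀ : ℕ), (∀ N, J N ∈ T) ∧ ∀ N : ℕ, N₀ ≤ N → 1 ≤ N ∧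
      Far (x (J N)) ((N : ℝ) ^ (1 / (T.card * μ + 2 : ℝ))) N := by
  classical
  have hk0 : (0 : ℝ) < T.card * μ + 2 := by positivity
  have hlim : Filter.Tendsto (fun N : ℕ => (N : ℝ) ^ (1 / (T.card * μ + 2 : ℝ))) Filter.atTop Filter.atTop :=
    (tendsto_rpow_atTop (by positivity)).comp tendsto_natCast_atTop_atTop
  obtain ⟨N₀, hN₀⟩ := Filter.eventually_atTop.1 (hlim.eventually_ge_atTop (1 / c + 1))
  have key : ∀ N : ℕ, N₀ + 1 ≤ N → ∃ j ∈ T, Far (x j) ((N : ℝ) ^ (1 / (T.card * μ + 2 : ℝ))) N := by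
    intro N hN
    have hN1 : 1 ≤ N := by omega
    have hNr : (1 : ℝ) ≤ N := by exact_mod_cast hN1
    have hN0 : (0 : ℝ) < N := by linarith
    have h1 := hN₀ N (by omega)
    set Z : ℝ := (N : ℝ) ^ (1 / (T.card * μ + 2 : ℝ)) with hZ
    have hZ1 : 1 ≤ Z := Real.one_le_rpow hNr (by positivity)
    have h2 : Z ^ (T.card * μ + 2) = N := by
      rw [hZ, rpow_pow_eq N _ _ 1 (by push_cast; field_simp), Real.rpow_one]
    refine exists_far T x μ c hm Z hZ1 N hN1 ?_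
    rw [← h2, pow_succ Z (T.card * μ + 1)]
    have h3 : 1 < c * Z := by
      have h4 : c * (1 / c + 1) ≤ c * Z := by gcongr
      have h5 : c * (1 / c + 1) = 1 + c := by field_simp
      linarith
    have h4 : 0 < Z ^ (T.card * μ + 1) := by positivity
    nlinarith
  obtain ⟨t, ht⟩ := hT
  refine ⟨fun N => if h : N₀ + 1 ≤ N then (key N h).choose else t, N₀ + 1, fun N => ?_, fun N hN => ?_⟩
  · simp only
    split_ifs with h
    · exact (key N h).choose_spec.1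
    · exact ht
  · refine ⟨by omega, ?_⟩
    simp only
    rw [dif_pos hN]
    exact (key N hN).choose_spec.2

end Pool.Agent.V8H31.ES
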