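import Pool.Agent.V8H31.ES.Fin
import Pool.Agent.V8H31.ES.BetaR
import Pool.Agent.W24.Katai
import Pool.Agent.Erdos456.Mertens

/-!
# Multiplicative functions against polynomial phases and Beatty sequences at one scale
-/

set_option autoImplicit false

namespace Pool.Agent.V8H31.ES

open Finset Real Polynomial Pool.Agent.W24.Katai

lemma conj_e (x : ℝ) : (starRingEnd ℂ) (e x) = e (-x) := by
  unfold e
  rw [← Complex.exp_conj]
  congr 1
  simp only [map_mul, Complex.conj_ofReal, Complex.conj_I, map_ofNat]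
  push_cast
  ring

lemma cor_symm (F : ℕ → ℂ) (p q M : ℕ) : ‖cor F p q M‖ = ‖cor F q p M‖ := by
  have : cor F p q M = (starRingEnd ℂ) (cor F q p M) := by
    unfold cor
    rw [map_sum]
    refine sum_congr rfl fun m _ => ?_
    rw [map_mul, Complex.conj_conj, mul_comm]
  rw [this, RCLike.norm_conj]

lemma sum_Ioc_range (f : ℕ → ℂ) (M : ℕ) : ∑ n ∈ Ioc 0 M, f n = ∑ n ∈ range M, f n - f 0 + f M := by
  induction M with
  | zero => simp
  | succ M ih =>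
    rw [sum_range_succ, sum_Ioc_succ_top (Nat.zero_le M), ih]
    ring

/-- correlations of a polynomial phase -/
lemma cor_poly (d : ℕ) (hd : 1 ≤ d) (P : ℝ[X]) (x : ℝ) (hP : P.natDegree ≤ d) (hPx : P.coeff d = x)
    (h p q : ℕ) (hpq : q < p) (N : ℕ) (hN : 1 ≤ N) (Y B : ℝ) (hY : 1 ≤ Y) (hYN : Y ≤ N)
    (hh1 : 1 ≤ h) (hhY : ((h * (p ^ d - q ^ d) : ℕ) : ℝ) ≤ Y)
    (hB : ∀ M : ℕ, M ≤ N → ∀ h' : ℕ, 1 ≤ h' → (h' : ℝ) ≤ Y →
      ∀ R : ℝ[X], R.natDegree ≤ d → R.coeff d = x → ‖∑ n ∈ range M, e (h' * R.eval (n : ℝ))‖ ≤ B * (N / Y))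
    (M : ℕ) (hM : M ≤ N) :
    ‖cor (fun n => e (h * P.eval (n : ℝ))) p q M‖ ≤ (B + 2) * (N / Y) := by
  have hlt : q ^ d < p ^ d := Nat.pow_lt_pow_left hpq (by omega)
  set D : ℕ := p ^ d - q ^ d with hD
  have hD1 : 1 ≤ D := by omega
  have hDr : (D : ℝ) = (p : ℝ) ^ d - (q : ℝ) ^ d := by
    rw [hD, Nat.cast_sub hlt.le]; push_cast; ring
  have hD0 : (0 : ℝ) < D := by exact_mod_cast hD1
  set R : ℝ[X] := C (1 / (D : ℝ)) * (P.comp (C (p : ℝ) * X) - P.comp (C (q : ℝ) * X)) with hR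
  have hdeg : ∀ r : ℝ, (P.comp (C r * X)).natDegree ≤ d := by
    intro r
    refine natDegree_comp_le.trans ?_
    have h1 : (C r * X : ℝ[X]).natDegree ≤ 1 := (natDegree_C_mul_le _ _).trans natDegree_X_le
    nlinarith
  have hRd : R.natDegree ≤ d := (natDegree_C_mul_le _ _).trans
    ((natDegree_sub_le_of_le (hdeg _) (hdeg _)).trans (max_self d).le)
  have hRx : R.coeff d = x := by
    rw [hR, coeff_C_mul, coeff_sub, comp_C_mul_X_coeff, comp_C_mul_X_coeff, hPx, ← mul_sub, ← hDr]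
    field_simp
  have hb := hB M hM (h * D) (Nat.mul_pos hh1 hD1) hhY R hRd hRx
  have hterm : ∀ m : ℕ, e (h * P.eval ((p * m : ℕ) : ℝ)) * (starRingEnd ℂ) (e (h * P.eval ((q * m : ℕ) : ℝ))) =
      e ((h * D : ℕ) * R.eval (m : ℝ)) := by
    intro m
    rw [conj_e, ← e_add]
    congr 1
    rw [hR, eval_mul, eval_C, eval_sub, eval_comp, eval_comp, eval_mul, eval_mul, eval_C, eval_C, eval_X]
    push_cast
    field_simp
    ring
  have hcor : cor (fun n => e (h * P.eval (n : ℝ))) p q M =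
      ∑ m ∈ Ioc 0 M, e ((h * D : ℕ) * R.eval (m : ℝ)) := by
    unfold cor
    exact sum_congr rfl fun m _ => hterm m
  rw [hcor, sum_Ioc_range]
  have hNY : 1 ≤ N / Y := by rw [one_le_div (by linarith)]; exact hYN
  have h1 : ‖∑ n ∈ range M, e ((h * D : ℕ) * R.eval (n : ℝ)) - e ((h * D : ℕ) * R.eval ((0 : ℕ) : ℝ)) +
      e ((h * D : ℕ) * R.eval (M : ℝ))‖ ≤ B * (N / Y) + 1 + 1 := by
    refine (norm_add_le _ _).trans ?_
    rw [norm_e]
    have h2 := norm_sub_le (∑ n ∈ range M, e ((h * D : ℕ) * R.eval (n : ℝ))) (e ((h * D : ℕ) * R.eval ((0 : ℕ) : ℝ)))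
    rw [norm_e] at h2
    have h3 := h2.trans (add_le_add_left hb 1)
    exact add_le_add_left h3 1
  refine h1.trans ?_
  have h2 : (B + 2) * (N / Y) = B * (N / Y) + 2 * (N / Y) := by ring
  rw [h2]
  linarith

/-- the sum of the reciprocals of the primes up to a power of `N` -/
lemma SS_large (b : ℝ) (hb : 0 < b) : ∃ N₀ : ℕ, ∀ N : ℕ, N₀ ≤ N →
    1 ≤ SS (primesTo ⌊(N : ℝ) ^ b⌋₊) ∧ Real.log (Real.log N) / 2 ≤ SS (primesTo ⌊(N : ℝ) ^ b⌋₊) ∧
      1 ≤ Real.log (Real.log N) := by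
  obtain ⟨C, hC⟩ := Pool.Agent.Erdos456.Mert.mertens_inv
  have hl1 : Filter.Tendsto (fun N : ℕ => (N : ℝ) ^ (b / 2)) Filter.atTop Filter.atTop :=
    (tendsto_rpow_atTop (by positivity)).comp tendsto_natCast_atTop_atTop
  have hl2 : Filter.Tendsto (fun N : ℕ => Real.log (Real.log N)) Filter.atTop Filter.atTop :=
    Real.tendsto_log_atTop.comp (Real.tendsto_log_atTop.comp tendsto_natCast_atTop_atTop)
  have hl3 : Filter.Tendsto (fun N : ℕ => Real.log (N : ℝ)) Filter.atTop Filter.atTop :=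
    Real.tendsto_log_atTop.comp tendsto_natCast_atTop_atTop
  obtain ⟨N1, hN1⟩ := Filter.eventually_atTop.1 (hl1.eventually_ge_atTop 4)
  obtain ⟨N2, hN2⟩ := Filter.eventually_atTop.1 (hl2.eventually_ge_atTop (2 * (|Real.log (b / 2)| + |C| + 1)))
  obtain ⟨N3, hN3⟩ := Filter.eventually_atTop.1 (hl3.eventually_ge_atTop 1)
  refine ⟨max (max N1 N2) (max N3 1), fun N hN => ?_⟩
  have hNa : N1 ≤ N := (le_max_left _ _).trans ((le_max_left _ _).trans hN)
  have hNb : N2 ≤ N := (le_max_right _ _).trans ((le_max_left _ _).trans hN)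
  have hNc : N3 ≤ N := (le_max_left _ _).trans ((le_max_right _ _).trans hN)
  have hNd : 1 ≤ N := (le_max_right _ _).trans ((le_max_right _ _).trans hN)
  have h1 := hN1 N hNa
  have h2 := hN2 N hNb
  have h3 := hN3 N hNc
  have hN0 : (0 : ℝ) < N := by exact_mod_cast hNd
  set u := (N : ℝ) ^ (b / 2) with hu
  have hub : (N : ℝ) ^ b = u * u := by
    rw [hu, ← Real.rpow_add hN0]; congr 1; ring
  set W : ℕ := ⌊(N : ℝ) ^ b⌋₊ with hW
  have hWlt : u * u < W + 1 := by rw [← hub]; exact Nat.lt_floor_add_one _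
  have hWu : u ≤ W := by nlinarith
  have hW3 : 3 ≤ W := by
    have : (3 : ℝ) ≤ W := by linarith
    exact_mod_cast this
  have h4 := (abs_le.1 (hC W hW3)).1
  have h5 : Real.log (b / 2) + Real.log (Real.log N) ≤ Real.log (Real.log W) := by
    rw [← Real.log_mul (by positivity) (by linarith)]
    apply Real.log_le_log (by positivity)
    have h6 : Real.log u = b / 2 * Real.log N := by rw [hu, Real.log_rpow hN0]
    rw [← h6]
    exact Real.log_le_log (by linarith) hWu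
  have h6 : SS (primesTo W) = ∑ p ∈ (Icc 1 W).filter Nat.Prime, (1 : ℝ) / p := rfl
  rw [h6]
  have h7 := neg_abs_le (Real.log (b / 2))
  have h8 := le_abs_self C
  have h9 := abs_nonneg (Real.log (b / 2))
  have h10 := abs_nonneg C
  refine ⟨by linarith, by linarith, by linarith⟩

/-- **Multiplicative functions against polynomial phases.** -/
theorem mult_far (c0 : ℝ) (h0 : 0 < c0) (h1 : c0 ≤ 1) (d : ℕ) (hd : 1 ≤ d) :
    ∃ (κ C : ℝ) (N₀ : ℕ), 0 < κ ∧ 0 ≤ C ∧ ∀ N : ℕ, N₀ ≤ N → 1 ≤ Real.log (Real.log N) ∧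
    ∀ x : ℝ, Far x ((N : ℝ) ^ c0) N → ∀ P : ℝ[X], P.natDegree ≤ d → P.coeff d = x →
    ∀ g : ℕ → ℂ, Mul1 g → ∀ M : ℕ, M ≤ N → ∀ h : ℕ, 1 ≤ h → (h : ℝ) ≤ (N : ℝ) ^ κ →
      ‖∑ n ∈ Ioc 0 M, g n * e (h * P.eval (n : ℝ))‖ ≤ C * (N / √(Real.log (Real.log N))) := by
  obtain ⟨d', hd'⟩ : ∃ d', d = d' + 1 := ⟨d - 1, by omega⟩
  obtain ⟨E, hE1, C1, hC1, hp⟩ := poly_bound d'
  rw [← hd'] at hp
  have hEr : (1 : ℝ) ≤ E := by exact_mod_cast hE1
  have hE0 : (0 : ℝ) < E := by linarith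
  have hdr : (1 : ℝ) ≤ d := by exact_mod_cast hd
  have hd0 : (0 : ℝ) < d := by linarith
  set b : ℝ := c0 / (2 * E * d) with hb
  have hb0 : 0 < b := by positivity
  obtain ⟨N₀, hN₀⟩ := SS_large b hb0
  refine ⟨c0 / (2 * E), (C1 + 8) * 2, N₀ + 1, by positivity, by positivity, fun N hN => ?_⟩
  obtain ⟨hS1, hS2, hll⟩ := hN₀ N (by omega)
  refine ⟨hll, fun x hfar P hP hPx g hg M hM h hh1 hhN => ?_⟩
  have hN1 : 1 ≤ N := by omega
  have hNr : (1 : ℝ) ≤ N := by exact_mod_cast hN1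
  have hN0 : (0 : ℝ) < N := by linarith
  set Y : ℝ := (N : ℝ) ^ (c0 / E) with hY
  have hY1 : 1 ≤ Y := Real.one_le_rpow hNr (by positivity)
  have hY0 : 0 < Y := by linarith
  have hYE : Y ^ E = (N : ℝ) ^ c0 := rpow_pow_eq N _ _ _ (by field_simp)
  have hYN : Y ≤ N := by
    calc Y ≤ (N : ℝ) ^ (1 : ℝ) := by
          apply Real.rpow_le_rpow_of_exponent_le hNr
          rw [div_le_one hE0]; linarith
      _ = N := Real.rpow_one _
  rw [← hYE] at hfar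
  set V : ℝ := (N : ℝ) ^ (c0 / (2 * E)) with hV
  have hV1 : 1 ≤ V := Real.one_le_rpow hNr (by positivity)
  have hVV : V * V = Y := by rw [hV, hY, ← Real.rpow_add hN0]; congr 1; field_simp; ring
  set W : ℕ := ⌊(N : ℝ) ^ b⌋₊ with hW
  have hWle : (W : ℝ) ≤ (N : ℝ) ^ b := Nat.floor_le (by positivity)
  have hWd : (W : ℝ) ^ d ≤ V := by
    calc (W : ℝ) ^ d ≤ ((N : ℝ) ^ b) ^ d := by gcongr
      _ = V := rpow_pow_eq N _ _ _ (by rw [hb]; field_simp)
  set Pr := primesTo W with hPr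
  have hprime : ∀ p ∈ Pr, p.Prime := fun p hp => (mem_filter.1 hp).2
  have hle : ∀ p ∈ Pr, p ≤ W := fun p hp => (mem_Icc.1 (mem_filter.1 hp).1).2
  have hcard : (Pr.card : ℝ) ≤ W := by
    have h3 : Pr.card ≤ W := by
      refine (card_filter_le _ _).trans ?_
      rw [Nat.card_Icc]; omega
    exact_mod_cast h3
  have hWV : (W : ℝ) ≤ V := by
    rcases Nat.eq_zero_or_pos W with hW0 | hW0
    · rw [hW0]; simp; linarith
    · have : (1 : ℝ) ≤ W := by exact_mod_cast hW0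
      calc (W : ℝ) ≤ (W : ℝ) ^ d := le_self_pow₀ this (by omega)
        _ ≤ V := hWd
  have hVN : V ≤ N := by nlinarith
  set F : ℕ → ℂ := fun n => e (h * P.eval (n : ℝ)) with hF
  have hF1 : ∀ n, ‖F n‖ ≤ 1 := fun n => (norm_e _).le
  set B : ℝ := (C1 + 2) * (N / Y) with hBdef
  have hB0 : 0 ≤ B := by positivity
  have hcor1 : ∀ p ∈ Pr, ∀ q ∈ Pr, q < p → ∀ K : ℕ, K ≤ M → ‖cor F p q K‖ ≤ B := by
    intro p hpP q hqP hqp K hK
    refine cor_poly d hd P x hP hPx h p q hqp N hN1 Y C1 hY1 hYN hh1 ?_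
      (fun M' hM' h' hh' hhY' R hR1 hR2 => hp N hN1 Y x hY1 hfar M' hM' h' hh' hhY' R hR1 hR2) K (hK.trans hM)
    have h3 : ((p ^ d - q ^ d : ℕ) : ℝ) ≤ V := by
      have h4 : p ^ d - q ^ d ≤ W ^ d := (Nat.sub_le _ _).trans (Nat.pow_le_pow_left (hle p hpP) d)
      have h5 : ((p ^ d - q ^ d : ℕ) : ℝ) ≤ ((W ^ d : ℕ) : ℝ) := by exact_mod_cast h4
      push_cast at h5
      exact h5.trans hWd
    rw [Nat.cast_mul, ← hVV]
    gcongr
  have hcor : ∀ p ∈ Pr, ∀ q ∈ Pr, p ≠ q → ∀ K : ℕ, K ≤ M → ‖cor F p q K‖ ≤ B := by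
    intro p hpP q hqP hpq K hK
    rcases Nat.lt_or_gt_of_ne hpq with h3 | h3
    · rw [cor_symm]; exact hcor1 q hqP p hpP h3 K hK
    · exact hcor1 p hpP q hqP h3 K hK
  set S := SS Pr with hS
  have hS0 : 0 < S := by linarith
  have s1 := step1 hprime hF1 hg M
  have s2 := step2 hprime hF1 hg M
  have s3 := sum_inv_sq_le hprime
  have s5 := step5 hprime hF1 hg M hB0 hcor
  have hMN : (M : ℝ) ≤ N := by exact_mod_cast hM
  have hM0 : (0 : ℝ) ≤ M := Nat.cast_nonneg _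
  have hsq : 1 ≤ √S := Real.one_le_sqrt.2 hS1
  have hsqS : √S * √S = S := Real.mul_self_sqrt hS0.le
  have hcardN : (Pr.card : ℝ) ≤ N := hcard.trans (hWV.trans hVN)
  -- bounds of the three errors
  have b1 : √(M * (M * S + 2 * S * (Pr.card : ℝ))) ≤ 2 * N * √S := by
    rw [Real.sqrt_le_left (by positivity)]
    calc (M : ℝ) * (M * S + 2 * S * (Pr.card : ℝ)) ≤ N * (N * S + 2 * S * N) := by gcongr
      _ = 3 * N ^ 2 * S := by ring
      _ ≤ 4 * N ^ 2 * S := by gcongr; norm_num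
      _ = (2 * N * √S) ^ 2 := by rw [mul_pow, mul_pow, Real.sq_sqrt hS0.le]; ring
  have b2 : 2 * (M : ℝ) * ∑ p ∈ Pr, 1 / (p : ℝ) ^ 2 ≤ 2 * N * √S := by
    calc 2 * (M : ℝ) * ∑ p ∈ Pr, 1 / (p : ℝ) ^ 2 ≤ 2 * N * 1 := by gcongr
      _ ≤ 2 * N * √S := by gcongr
  have b3 : √(M * (M * S + (Pr.card : ℝ) ^ 2 * B)) ≤ (C1 + 3) * N * √S := by
    rw [Real.sqrt_le_left (by positivity)]
    have h3 : (Pr.card : ℝ) ^ 2 * B ≤ (C1 + 2) * N := by
      have h4 : (Pr.card : ℝ) ^ 2 ≤ Y := by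
        calc (Pr.card : ℝ) ^ 2 ≤ V ^ 2 := by
              have := hcard.trans hWV
              gcongr
          _ = Y := by rw [← hVV]; ring
      calc (Pr.card : ℝ) ^ 2 * B ≤ Y * B := by gcongr
        _ = (C1 + 2) * N := by rw [hBdef]; field_simp
    calc (M : ℝ) * (M * S + (Pr.card : ℝ) ^ 2 * B) ≤ N * (N * S + (C1 + 2) * N) := by gcongr
      _ ≤ N * (N * S + (C1 + 2) * N * S) := by
          have : (C1 + 2) * N ≤ (C1 + 2) * N * S := le_mul_of_one_le_right (by positivity) hS1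
          gcongr
      _ = (C1 + 3) * (N ^ 2 * S) := by ring
      _ ≤ (C1 + 3) ^ 2 * (N ^ 2 * S) := by
          have : C1 + 3 ≤ (C1 + 3) ^ 2 := by nlinarith
          gcongr
      _ = ((C1 + 3) * N * √S) ^ 2 := by rw [mul_pow, mul_pow, Real.sq_sqrt hS0.le]; ring
  have hfin : ‖(S : ℂ) * ∑ n ∈ Ioc 0 M, g n * F n‖ ≤ (C1 + 8) * N * √S := by
    set A0 := (S : ℂ) * ∑ n ∈ Ioc 0 M, g n * F n with hA0
    set A1 := ∑ p ∈ Pr, ∑ m ∈ Ioc 0 (M / p), g (p * m) * F (p * m) with hA1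
    set A2 := ∑ p ∈ Pr, ∑ m ∈ Ioc 0 (M / p), g p * g m * F (p * m) with hA2
    have h3 : A0 = (A0 - A1) + (A1 - A2) + A2 := by ring
    rw [h3]
    have h4 := norm_add_le ((A0 - A1) + (A1 - A2)) A2
    have h5 := norm_add_le (A0 - A1) (A1 - A2)
    have h6 : 0 ≤ N * √S := by positivity
    have h7 : (C1 + 8) * N * √S = 2 * N * √S + 2 * N * √S + (C1 + 3) * N * √S + N * √S := by ring
    linarith
  rw [norm_mul, Complex.norm_real, Real.norm_eq_abs, abs_of_pos hS0] at hfin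
  have h3 : ‖∑ n ∈ Ioc 0 M, g n * F n‖ ≤ (C1 + 8) * (N / √S) := by
    have h4 : √S * (√S * ‖∑ n ∈ Ioc 0 M, g n * F n‖) ≤ √S * ((C1 + 8) * N) := by
      rw [← mul_assoc, hsqS]
      linarith
    have h5 := le_of_mul_le_mul_left h4 (by positivity)
    rw [← mul_div_assoc, le_div_iff₀ (by positivity), mul_comm]
    exact h5
  refine h3.trans ?_
  have h4 : √(Real.log (Real.log N)) ≤ 2 * √S := by
    rw [Real.sqrt_le_left (by positivity), mul_pow, Real.sq_sqrt hS0.le]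
    linarith
  have hll0 : 0 < √(Real.log (Real.log N)) := Real.sqrt_pos.2 (by linarith)
  have h5 : (N : ℝ) / √S ≤ 2 * (N / √(Real.log (Real.log N))) := by
    rw [← mul_div_assoc, div_le_div_iff₀ (by positivity) hll0]
    calc (N : ℝ) * √(Real.log (Real.log N)) ≤ N * (2 * √S) := by gcongr
      _ = 2 * N * √S := by ring
  calc (C1 + 8) * (N / √S) ≤ (C1 + 8) * (2 * (N / √(Real.log (Real.log N)))) := by gcongr
    _ = _ := by ring

end Pool.Agent.V8H31.ES
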