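import Pool.Agent.V8H31.ES.Beta
import Pool.Agent.V8H31.ES.Dio
import Pool.Agent.Y885.VM

/-!
# Exponential sums over primes for a number which is badly approximable at one scale
-/

set_option autoImplicit false

namespace Pool.Agent.V8H31.ES

open Finset Real

lemma ee_eq (x : ℝ) : Pool.Agent.H807R2.Dav.ee x = e x := by
  unfold Pool.Agent.H807R2.Dav.ee e
  congr 1
  push_cast
  ring

lemma triv_vm (M : ℕ) (g : ℕ → ℂ) (hg : ∀ n, ‖g n‖ ≤ 1) :
    ‖∑ n ∈ Icc 1 M, ((ArithmeticFunction.vonMangoldt n : ℝ) : ℂ) * g n‖ ≤ M * Real.log M := by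
  refine (norm_sum_le _ _).trans ?_
  have h1 : ∀ n ∈ Icc 1 M, ‖((ArithmeticFunction.vonMangoldt n : ℝ) : ℂ) * g n‖ ≤ Real.log M := by
    intro n hn
    rw [mem_Icc] at hn
    rw [norm_mul, Complex.norm_real, Real.norm_eq_abs,
      abs_of_nonneg ArithmeticFunction.vonMangoldt_nonneg]
    have h2 : ArithmeticFunction.vonMangoldt n ≤ Real.log n := ArithmeticFunction.vonMangoldt_le_log
    have h3 : Real.log n ≤ Real.log M :=
      Real.log_le_log (by exact_mod_cast hn.1) (by exact_mod_cast hn.2)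
    have h4 : 0 ≤ ArithmeticFunction.vonMangoldt n := ArithmeticFunction.vonMangoldt_nonneg
    have h5 := hg n
    have h6 := norm_nonneg (g n)
    nlinarith
  refine (sum_le_sum h1).trans ?_
  rw [sum_const, Nat.card_Icc, nsmul_eq_mul, Nat.add_sub_cancel]

theorem vm_bound : ∃ C : ℝ, 0 ≤ C ∧ ∀ N : ℕ, 1 ≤ N → ∀ Z x : ℝ, 1 ≤ Z → Z ^ 16 ≤ N →
    Far x (Z ^ 16) N → ∀ M : ℕ, M ≤ N → ∀ h : ℕ, 1 ≤ h → (h : ℝ) ≤ Z →
    ‖∑ n ∈ Icc 1 M, ((ArithmeticFunction.vonMangoldt n : ℝ) : ℂ) * e (h * (n * x))‖ ≤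
      C * ((1 + Real.log N) ^ 7 * (N / Z ^ 2)) := by
  obtain ⟨N0, h0⟩ := Pool.Agent.Y885.minor5
  have hN0l : 0 ≤ Real.log N0 := Real.log_natCast_nonneg N0
  refine ⟨400000 + N0 * Real.log N0, by positivity, fun N hN Z x hZ hZN hfar M hM h hh1 hhZ => ?_⟩
  have hNr : (1 : ℝ) ≤ N := by exact_mod_cast hN
  have hN0 : (0 : ℝ) < N := by linarith
  have hZ0 : 0 < Z := by linarith
  have hlN : 0 ≤ Real.log N := Real.log_natCast_nonneg N
  have hMN : (M : ℝ) ≤ N := by exact_mod_cast hM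
  have hp : 1 ≤ (1 + Real.log N) ^ 7 := one_le_pow₀ (by linarith)
  have hNZ : 1 ≤ N / Z ^ 2 := by
    rw [le_div_iff₀ (by positivity), one_mul]
    exact (pow_le_pow_right₀ hZ (by norm_num)).trans hZN
  have hX : 1 ≤ (1 + Real.log N) ^ 7 * (N / Z ^ 2) := by nlinarith
  have hN0C : 0 ≤ (N0 : ℝ) * Real.log N0 := by positivity
  -- logarithms
  have htriv := triv_vm M (fun n => e (h * (n * x))) (fun n => (norm_e _).le)
  rcases lt_or_ge M N0 with hc1 | hc1
  · rcases Nat.eq_zero_or_pos M with hM0 | hM0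
    · subst hM0
      simp only [Nat.cast_zero, zero_mul] at htriv
      exact htriv.trans (by positivity)
    · have h1 : (M : ℝ) * Real.log M ≤ N0 * Real.log N0 := by
        have hMr : (1 : ℝ) ≤ M := by exact_mod_cast hM0
        have h2 : (M : ℝ) ≤ N0 := by exact_mod_cast hc1.le
        have h3 : Real.log M ≤ Real.log N0 := Real.log_le_log (by linarith) h2
        have h4 : 0 ≤ Real.log M := Real.log_nonneg hMr
        nlinarith
      refine htriv.trans (h1.trans ?_)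
      nlinarith
  rcases lt_or_ge ((M : ℝ) * Z ^ 4) N with hc2 | hc2
  · refine htriv.trans ?_
    rcases Nat.eq_zero_or_pos M with hM0 | hM0
    · subst hM0
      simp only [Nat.cast_zero, zero_mul]
      positivity
    have hMr : (1 : ℝ) ≤ M := by exact_mod_cast hM0
    have h1 : Real.log M ≤ Real.log N := Real.log_le_log (by linarith) hMN
    have h2 : (M : ℝ) ≤ N / Z ^ 2 := by
      rw [le_div_iff₀ (by positivity)]
      have h3 : Z ^ 2 ≤ Z ^ 4 := pow_le_pow_right₀ hZ (by norm_num)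
      have h4 : (M : ℝ) * Z ^ 2 ≤ M * Z ^ 4 := by gcongr
      linarith
    have h3 : 1 + Real.log N ≤ (1 + Real.log N) ^ 7 := le_self_pow₀ (by linarith) (by norm_num)
    have h4 : (M : ℝ) * Real.log M ≤ (N / Z ^ 2) * (1 + Real.log N) ^ 7 := by
      have h5 : 0 ≤ Real.log M := Real.log_nonneg hMr
      calc (M : ℝ) * Real.log M ≤ (N / Z ^ 2) * Real.log M := by gcongr
        _ ≤ (N / Z ^ 2) * (1 + Real.log N) ^ 7 := by
            apply mul_le_mul_of_nonneg_left _ (by positivity)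
            linarith
    nlinarith
  -- the main case
  have hM12 : Z ^ 12 ≤ M := by
    have h1 : Z ^ 16 = Z ^ 12 * Z ^ 4 := by ring
    have h2 : Z ^ 12 * Z ^ 4 ≤ M * Z ^ 4 := by linarith
    exact le_of_mul_le_mul_right h2 (by positivity)
  have hZ12 : 1 ≤ Z ^ 12 := one_le_pow₀ hZ
  have hMr : (1 : ℝ) ≤ M := by linarith
  have hMpos : (0 : ℝ) < M := by linarith
  set Q : ℕ := ⌊(M : ℝ) / Z ^ 4⌋₊ with hQ
  have hQ1 : 1 ≤ Q := by
    rw [hQ]
    apply Nat.le_floor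
    rw [Nat.cast_one]
    rw [one_le_div (by positivity)]
    exact (pow_le_pow_right₀ hZ (by norm_num)).trans hM12
  have hQle : (Q : ℝ) ≤ M / Z ^ 4 := Nat.floor_le (by positivity)
  have hQlt : (M : ℝ) / Z ^ 4 < Q + 1 := Nat.lt_floor_add_one _
  obtain ⟨r, hr1, hr2⟩ := Real.exists_rat_abs_sub_le_and_den_le ((h : ℝ) * x) (n := Q) hQ1
  set q : ℕ := r.den with hq
  have hq1 : 1 ≤ q := r.den_pos
  have hqr : (1 : ℝ) ≤ q := by exact_mod_cast hq1
  have hqpos : (0 : ℝ) < q := by linarith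
  have hr : (r : ℝ) = (r.num : ℝ) / q := by rw [hq]; exact Rat.cast_def r
  rw [hr] at hr1
  have hqQ : (q : ℝ) ≤ Q := by exact_mod_cast hr2
  have hqM : (q : ℝ) ≤ M / Z ^ 4 := hqQ.trans hQle
  have hd1 : |(h : ℝ) * x - r.num / q| ≤ 1 / (q : ℝ) ^ 2 := by
    refine hr1.trans ?_
    apply one_div_le_one_div_of_le (by positivity)
    nlinarith
  have hd2 : |((q * h : ℕ) : ℝ) * x - r.num| < Z ^ 16 / N := by
    have h1 : ((q * h : ℕ) : ℝ) * x - r.num = q * ((h : ℝ) * x - r.num / q) := by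
      push_cast
      field_simp
    rw [h1, abs_mul, abs_of_pos hqpos]
    have h2 : (q : ℝ) * |(h : ℝ) * x - r.num / q| ≤ 1 / (Q + 1) := by
      have h3 : (q : ℝ) * |(h : ℝ) * x - r.num / q| ≤ q * (1 / ((Q + 1) * q)) := by gcongr
      have h4 : (q : ℝ) * (1 / ((Q + 1) * q)) = 1 / (Q + 1) := by field_simp
      linarith
    have h3 : 1 / ((Q : ℝ) + 1) < Z ^ 4 / M := by
      rw [div_lt_div_iff₀ (by positivity) hMpos, one_mul]
      have := (div_lt_iff₀ (by positivity : (0 : ℝ) < Z ^ 4)).1 hQlt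
      linarith
    have h4 : Z ^ 4 / M ≤ Z ^ 16 / N := by
      rw [div_le_div_iff₀ hMpos hN0]
      have h5 : Z ^ 4 * N ≤ Z ^ 4 * (M * Z ^ 4) := by gcongr
      have h6 : Z ^ 4 * (M * Z ^ 4) = Z ^ 8 * M := by ring
      have h7 : Z ^ 8 * M ≤ Z ^ 16 * M := by
        have : Z ^ 8 ≤ Z ^ 16 := pow_le_pow_right₀ hZ (by norm_num)
        gcongr
      linarith
    linarith
  have hqh : Z ^ 16 < ((q * h : ℕ) : ℝ) := by
    by_contra hcon
    have h1 := hfar (q * h) r.num (Nat.mul_pos hq1 hh1) (not_lt.1 hcon)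
    exact absurd hd2 (not_lt.2 h1.le)
  have hq4 : Z ^ 4 ≤ q := by
    push_cast at hqh
    have h1 : (q : ℝ) * h ≤ q * Z := by gcongr
    have h2 : Z ^ 15 * Z < q * Z := by
      have : Z ^ 15 * Z = Z ^ 16 := by ring
      linarith
    have h3 : Z ^ 15 < q := lt_of_mul_lt_mul_right h2 hZ0.le
    have h4 : Z ^ 4 ≤ Z ^ 15 := pow_le_pow_right₀ hZ (by norm_num)
    linarith
  set V : ℕ := ⌊Z ^ 4⌋₊ with hV
  have hZ4 : 1 ≤ Z ^ 4 := one_le_pow₀ hZ
  have hV1 : 1 ≤ V := Nat.le_floor (by simpa using hZ4)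
  have hVr : (1 : ℝ) ≤ V := by exact_mod_cast hV1
  have hVle : (V : ℝ) ≤ Z ^ 4 := Nat.floor_le (by positivity)
  have hVlt : Z ^ 4 < V + 1 := Nat.lt_floor_add_one _
  have hV5 : V ^ 5 ≤ M ^ 2 := by
    have h1 : (V : ℝ) ^ 5 ≤ (M : ℝ) ^ 2 := by
      calc (V : ℝ) ^ 5 ≤ (Z ^ 4) ^ 5 := by gcongr
        _ = Z ^ 20 := by ring
        _ ≤ Z ^ 24 := pow_le_pow_right₀ hZ (by norm_num)
        _ = (Z ^ 12) ^ 2 := by ring
        _ ≤ (M : ℝ) ^ 2 := by gcongr
    exact_mod_cast h1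
  have hqM' : q ≤ M := by
    have h1 : (q : ℝ) ≤ M := by
      refine hqM.trans ?_
      exact div_le_self (by linarith) hZ4
    exact_mod_cast h1
  have hcop : IsCoprime r.num (q : ℤ) := by
    rw [Int.isCoprime_iff_gcd_eq_one, hq]
    have := r.reduced
    rw [Int.gcd_def] 
    simpa using this
  have hmain := h0 M hc1 V q hV1 hV5 hq1 hqM' r.num hcop ((h : ℝ) * x) hd1
  have hsum : ∑ n ∈ Icc 1 M, ((ArithmeticFunction.vonMangoldt n : ℝ) : ℂ) *
      Pool.Agent.H807R2.Dav.ee ((n : ℝ) * ((h : ℝ) * x)) =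
      ∑ n ∈ Icc 1 M, ((ArithmeticFunction.vonMangoldt n : ℝ) : ℂ) * e (h * (n * x)) := by
    refine sum_congr rfl fun n _ => ?_
    rw [ee_eq]
    congr 2
    ring
  rw [hsum] at hmain
  refine hmain.trans ?_
  have hs : √(1 / (q : ℝ) + 1 / V + q / M) ≤ 2 / Z ^ 2 := by
    rw [Real.sqrt_le_left (by positivity)]
    have h1 : 1 / (q : ℝ) ≤ 1 / Z ^ 4 := one_div_le_one_div_of_le (by positivity) hq4
    have h2 : 1 / (V : ℝ) ≤ 2 / Z ^ 4 := by
      rw [div_le_div_iff₀ (by linarith) (by positivity)]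
      linarith
    have h3 : (q : ℝ) / M ≤ 1 / Z ^ 4 := by
      rw [div_le_div_iff₀ hMpos (by positivity), one_mul]
      exact (le_div_iff₀ (by positivity)).1 hqM
    have h4 : (2 / Z ^ 2) ^ 2 = 1 / Z ^ 4 + 2 / Z ^ 4 + 1 / Z ^ 4 := by
      field_simp
      ring
    linarith
  have hlM : Real.log M ≤ 1 + Real.log N := by
    have := Real.log_le_log hMpos hMN
    linarith
  have hlM0 : 0 ≤ Real.log M := Real.log_nonneg hMr
  calc 200000 * Real.log M ^ 7 * (M * √(1 / (q : ℝ) + 1 / V + q / M))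
      ≤ 200000 * (1 + Real.log N) ^ 7 * (N * (2 / Z ^ 2)) := by gcongr
    _ = 400000 * ((1 + Real.log N) ^ 7 * (N / Z ^ 2)) := by ring
    _ ≤ (400000 + N0 * Real.log N0) * ((1 + Real.log N) ^ 7 * (N / Z ^ 2)) := by
        gcongr
        linarith

/-- exponential sums over primes with logarithmic weights -/
theorem pr_log : ∃ C : ℝ, 0 ≤ C ∧ ∀ N : ℕ, 1 ≤ N → ∀ Z x : ℝ, 1 ≤ Z → Z ^ 16 ≤ N →
    Far x (Z ^ 16) N → ∀ M : ℕ, M ≤ N → ∀ h : ℕ, 1 ≤ h → (h : ℝ) ≤ Z →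
    ‖∑ p ∈ Icc 1 M with p.Prime, ((Real.log p : ℝ) : ℂ) * e (h * (p * x))‖ ≤
      C * ((1 + Real.log N) ^ 7 * (N / Z ^ 2)) := by
  obtain ⟨C, hC, h0⟩ := vm_bound
  refine ⟨C + 2, by positivity, fun N hN Z x hZ hZN hfar M hM h hh1 hhZ => ?_⟩
  have h1 := h0 N hN Z x hZ hZN hfar M hM h hh1 hhZ
  have hNr : (1 : ℝ) ≤ N := by exact_mod_cast hN
  have hlN : 0 ≤ Real.log N := Real.log_natCast_nonneg N
  have hp : 1 + Real.log N ≤ (1 + Real.log N) ^ 7 := le_self_pow₀ (by linarith) (by norm_num)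
  rcases Nat.eq_zero_or_pos M with hM0 | hM0
  · subst hM0
    simp only [Nat.lt_one_iff, pos_of_gt, Icc_eq_empty_of_lt, filter_empty, sum_empty, norm_zero]
    positivity
  have hMr : (1 : ℝ) ≤ M := by exact_mod_cast hM0
  have hMN : (M : ℝ) ≤ N := by exact_mod_cast hM
  -- the difference
  have h2 : ‖∑ n ∈ Icc 1 M, ((ArithmeticFunction.vonMangoldt n : ℝ) : ℂ) * e (h * (n * x)) -
      ∑ p ∈ Icc 1 M with p.Prime, ((Real.log p : ℝ) : ℂ) * e (h * (p * x))‖ ≤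
      Chebyshev.psi M - Chebyshev.theta M := by
    rw [sum_filter, ← sum_sub_distrib]
    refine (norm_sum_le _ _).trans (le_of_eq ?_)
    have h3 : Chebyshev.psi M - Chebyshev.theta M =
        ∑ n ∈ Icc 1 M, (ArithmeticFunction.vonMangoldt n - if n.Prime then Real.log n else 0) := by
      unfold Chebyshev.psi Chebyshev.theta
      rw [Nat.floor_natCast, sum_filter, ← sum_sub_distrib]
      rfl
    rw [h3]
    refine sum_congr rfl fun n _ => ?_
    by_cases hn : n.Prime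
    · rw [if_pos hn, if_pos hn, ArithmeticFunction.vonMangoldt_apply_prime hn]
      simp
    · rw [if_neg hn, if_neg hn, sub_zero, sub_zero, norm_mul, norm_e, mul_one, Complex.norm_real,
        Real.norm_eq_abs, abs_of_nonneg ArithmeticFunction.vonMangoldt_nonneg]
  have h3 : Chebyshev.psi M - Chebyshev.theta M ≤ 2 * ((1 + Real.log N) ^ 7 * (N / Z ^ 2)) := by
    have h4 := (le_abs_self _).trans (Chebyshev.abs_psi_sub_theta_le_sqrt_mul_log hMr)
    have h5 : √(M : ℝ) ≤ N / Z ^ 2 := by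
      rw [Real.sqrt_le_left (by positivity)]
      have h6 : (N / Z ^ 2) ^ 2 = N * (N / Z ^ 4) := by ring
      rw [h6]
      have h7 : 1 ≤ N / Z ^ 4 := by
        rw [le_div_iff₀ (by positivity), one_mul]
        exact (pow_le_pow_right₀ hZ (by norm_num)).trans hZN
      nlinarith
    have h6 : Real.log M ≤ Real.log N := Real.log_le_log (by linarith) hMN
    have h7 : 0 ≤ Real.log M := Real.log_nonneg hMr
    calc Chebyshev.psi M - Chebyshev.theta M ≤ 2 * √(M : ℝ) * Real.log M := h4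
      _ ≤ 2 * (N / Z ^ 2) * (1 + Real.log N) ^ 7 := by
          gcongr
          linarith
      _ = _ := by ring
  have h4 : ∑ p ∈ Icc 1 M with p.Prime, ((Real.log p : ℝ) : ℂ) * e (h * (p * x)) =
      ∑ n ∈ Icc 1 M, ((ArithmeticFunction.vonMangoldt n : ℝ) : ℂ) * e (h * (n * x)) -
      (∑ n ∈ Icc 1 M, ((ArithmeticFunction.vonMangoldt n : ℝ) : ℂ) * e (h * (n * x)) -
      ∑ p ∈ Icc 1 M with p.Prime, ((Real.log p : ℝ) : ℂ) * e (h * (p * x))) := by ring
  rw [h4]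
  refine (norm_sub_le _ _).trans ?_
  linarith

/-- partial summation: removing a logarithmic weight -/
lemma abel (a : ℕ → ℂ) (B : ℝ) (M : ℕ) (hB : ∀ K ≤ M, ‖∑ n ∈ Icc 1 K, a n‖ ≤ B)
    (g : ℕ → ℝ) (G : ℝ) (hg0 : ∀ n, 1 ≤ n → 0 ≤ g n) (hg1 : ∀ n, 1 ≤ n → g (n + 1) ≤ g n) (hG : g 1 ≤ G)
    (hGG : 0 ≤ G) :
    ‖∑ n ∈ Icc 1 M, (g n : ℂ) * a n‖ ≤ G * B := by
  have hB0 : 0 ≤ B := (norm_nonneg _).trans (hB 0 (Nat.zero_le _))
  have key : ∀ K, K ≤ M → 1 ≤ K → ‖∑ n ∈ Icc 1 K, (g n : ℂ) * a n - (g K : ℂ) * ∑ n ∈ Icc 1 K, a n‖ ≤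
      (g 1 - g K) * B := by
    intro K
    induction K with
    | zero => intro _ h; omega
    | succ K ih =>
      intro hK _
      rcases Nat.eq_zero_or_pos K with h0 | h0
      · subst h0; simp
      have h1 := ih (by omega) h0
      rw [sum_Icc_succ_top (by omega), sum_Icc_succ_top (by omega)]
      have h2 : ∑ n ∈ Icc 1 K, (g n : ℂ) * a n + (g (K + 1) : ℂ) * a (K + 1) -
          (g (K + 1) : ℂ) * (∑ n ∈ Icc 1 K, a n + a (K + 1)) =
          (∑ n ∈ Icc 1 K, (g n : ℂ) * a n - (g K : ℂ) * ∑ n ∈ Icc 1 K, a n) +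
          ((g K - g (K + 1) : ℝ) : ℂ) * ∑ n ∈ Icc 1 K, a n := by
        push_cast; ring
      rw [h2]
      refine (norm_add_le _ _).trans ?_
      have h3 : ‖((g K - g (K + 1) : ℝ) : ℂ) * ∑ n ∈ Icc 1 K, a n‖ ≤ (g K - g (K + 1)) * B := by
        rw [norm_mul, Complex.norm_real, Real.norm_eq_abs, abs_of_nonneg (by linarith [hg1 K h0])]
        exact mul_le_mul_of_nonneg_left (hB K (by omega)) (by linarith [hg1 K h0])
      linarith
  rcases Nat.eq_zero_or_pos M with hM | hM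
  · subst hM
    simp only [Nat.lt_one_iff, pos_of_gt, Icc_eq_empty_of_lt, sum_empty, norm_zero]
    positivity
  have h1 := key M le_rfl hM
  have h2 : ∑ n ∈ Icc 1 M, (g n : ℂ) * a n =
      (∑ n ∈ Icc 1 M, (g n : ℂ) * a n - (g M : ℂ) * ∑ n ∈ Icc 1 M, a n) +
      (g M : ℂ) * ∑ n ∈ Icc 1 M, a n := by ring
  rw [h2]
  refine (norm_add_le _ _).trans ?_
  have h3 : ‖(g M : ℂ) * ∑ n ∈ Icc 1 M, a n‖ ≤ g M * B := by
    rw [norm_mul, Complex.norm_real, Real.norm_eq_abs, abs_of_nonneg (hg0 M hM)]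
    exact mul_le_mul_of_nonneg_left (hB M le_rfl) (hg0 M hM)
  have h4 : g 1 * B ≤ G * B := by gcongr
  linarith

/-- exponential sums over primes -/
theorem pr_sum : ∃ C : ℝ, 0 ≤ C ∧ ∀ N : ℕ, 1 ≤ N → ∀ Z x : ℝ, 1 ≤ Z → Z ^ 16 ≤ N →
    Far x (Z ^ 16) N → ∀ M : ℕ, M ≤ N → ∀ h : ℕ, 1 ≤ h → (h : ℝ) ≤ Z →
    ‖∑ p ∈ Icc 1 M with p.Prime, e (h * (p * x))‖ ≤
      C * ((1 + Real.log N) ^ 7 * (N / Z ^ 2)) := by
  obtain ⟨C, hC, h0⟩ := pr_log
  refine ⟨2 * C, by positivity, fun N hN Z x hZ hZN hfar M hM h hh1 hhZ => ?_⟩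
  set a : ℕ → ℂ := fun p => if p.Prime then ((Real.log p : ℝ) : ℂ) * e (h * (p * x)) else 0 with ha
  set g : ℕ → ℝ := fun n => 1 / Real.log (max 2 n : ℕ) with hg
  have hl2 : 1 / 2 ≤ Real.log 2 := by linarith [Real.log_two_gt_d9]
  have hpos : ∀ n : ℕ, 0 < Real.log ((max 2 n : ℕ) : ℝ) := by
    intro n
    apply Real.log_pos
    have : (2 : ℝ) ≤ ((max 2 n : ℕ) : ℝ) := by exact_mod_cast le_max_left 2 n
    linarith
  have h1 := abel a (C * ((1 + Real.log N) ^ 7 * (N / Z ^ 2))) M (fun K hK => by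
      have h2 := h0 N hN Z x hZ hZN hfar K (hK.trans hM) h hh1 hhZ
      rw [sum_filter] at h2
      exact h2) g 2 (fun n _ => (by have := hpos n; positivity)) (fun n _ => by
      rw [hg]
      apply one_div_le_one_div_of_le (hpos n)
      apply Real.log_le_log
      · have : 0 < max 2 n := by omega
        exact_mod_cast this
      · exact_mod_cast (by omega : max 2 n ≤ max 2 (n + 1))) (by
      rw [hg]
      have h3 : ((max 2 1 : ℕ) : ℝ) = 2 := by norm_num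
      simp only [h3]
      rw [div_le_iff₀ (by linarith)]
      linarith) (by norm_num)
  have h2 : ∑ p ∈ Icc 1 M with p.Prime, e (h * (p * x)) = ∑ n ∈ Icc 1 M, (g n : ℂ) * a n := by
    rw [sum_filter]
    refine sum_congr rfl fun n _ => ?_
    rw [ha, hg]
    by_cases hn : n.Prime
    · simp only [if_pos hn]
      have h3 : max 2 n = n := max_eq_right hn.two_le
      rw [h3]
      have h4 := hpos n
      rw [h3] at h4
      have h5 : ((1 / Real.log n : ℝ) : ℂ) * (((Real.log n : ℝ) : ℂ) * e (h * (n * x))) =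
          e (h * (n * x)) := by
        rw [← mul_assoc, ← Complex.ofReal_mul, one_div_mul_cancel h4.ne', Complex.ofReal_one, one_mul]
      exact h5.symm
    · simp only [if_neg hn, mul_zero]
  rw [h2]
  refine h1.trans (le_of_eq ?_)
  ring

end Pool.Agent.V8H31.ES
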